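import Mathlib

/-!
# Complete classes of matroids and `M(K_4)`: definitions
-/

set_option autoImplicit false

open Set Matroid

namespace Pool.Agent.Helper45.K4

/-- A class of matroids: a property of matroids on ground sets in arbitrary types. -/
abbrev MatroidClass : Type 1 := ∀ α : Type, Matroid α → Prop

/-- `M` and `N` are isomorphic: some bijection between the ground sets preserves independence. -/
def Iso {α β : Type} (M : Matroid α) (N : Matroid β) : Prop :=
  ∃ e : M.E ≃ N.E, ∀ I : Set M.E, M.Indep (Subtype.val '' I) ↔ N.Indep (Subtype.val '' (e '' I))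

/-- `N` is isomorphic to the cycle matroid `M(K_4)`: some bijection from the edges of the complete
graph on four vertices onto the ground set of `N` makes the independent sets of `N` correspond to
the acyclic sets of edges. -/
def IsMK4 {α : Type} (N : Matroid α) : Prop :=
  ∃ e : (⊤ : SimpleGraph (Fin 4)).edgeSet ≃ N.E,
    ∀ I : Set (⊤ : SimpleGraph (Fin 4)).edgeSet,
      N.Indep (Subtype.val '' (e '' I)) ↔ (SimpleGraph.fromEdgeSet (Subtype.val '' I)).IsAcyclic

/-- In the directed graph with vertex set `T` and arcs `Γ`, the set `I` is joined onto the set `J`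
by pairwise vertex-disjoint directed paths: for each `i ∈ I` there is a directed path
`p i 0, p i 1, …, p i (n i)` (length zero allowed) in `T` starting at `i`, no vertex occurs twice
on these paths, and `J` is the set of their terminal vertices. -/
def JoinedOnto {α : Type} (T : Set α) (Γ : α → α → Prop) (I J : Set α) : Prop :=
  ∃ (n : α → ℕ) (p : α → ℕ → α),
    (∀ i ∈ I, p i 0 = i) ∧
    (∀ i ∈ I, ∀ k ≤ n i, p i k ∈ T) ∧
    (∀ i ∈ I, ∀ k < n i, Γ (p i k) (p i (k + 1))) ∧
    (∀ i ∈ I, ∀ k ≤ n i, ∀ j ∈ I, ∀ l ≤ n j, p i k = p j l → i = j ∧ k = l) ∧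
    J = {v | ∃ i ∈ I, v = p i (n i)}

/-- Complete classes of finite matroids (Ingleton): closed under isomorphism, restriction,
contraction, duality, direct sum, truncation, and induction by directed graphs. -/
structure IsComplete (C : MatroidClass) : Prop where
  finite : ∀ (α : Type) (M : Matroid α), C α M → M.Finite
  iso : ∀ (α β : Type) (M : Matroid α) (N : Matroid β), Iso M N → C α M → C β N
  restriction : ∀ (α : Type) (M : Matroid α) (R : Set α), R ⊆ M.E → C α M → C α (M ↾ R)
  contraction : ∀ (α : Type) (M : Matroid α) (X : Set α), X ⊆ M.E → C α M → C α (M ／ X)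
  duality : ∀ (α : Type) (M : Matroid α), C α M → C α M✶
  directSum : ∀ (α β : Type) (M : Matroid α) (N : Matroid β), C α M → C β N → C (α ⊕ β) (M.sum N)
  truncation : ∀ (α : Type) (M : Matroid α) (k : ℕ), C α M →
    ∃ N : Matroid α, N.E = M.E ∧ (∀ I, N.Indep I ↔ M.Indep I ∧ I.encard ≤ k) ∧ C α N
  induction : ∀ (α : Type) (T : Set α) (Γ : α → α → Prop) (M₀ : Matroid α) (A : Set α),
    T.Finite → M₀.E ⊆ T → A ⊆ T → C α M₀ →
    ∃ N : Matroid α, N.E = A ∧
      (∀ I, N.Indep I ↔ I ⊆ A ∧ ∃ J, M₀.Indep J ∧ JoinedOnto T Γ I J) ∧ C α N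

/-- The class `𝒦` of finite matroids with no minor isomorphic to `M(K_4)`. -/
def NoMK4Minor : MatroidClass := fun α M =>
  M.Finite ∧ ∀ N : Matroid α, N ≤m M → ¬ IsMK4 N

end Pool.Agent.Helper45.K4
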