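import Mathlib

/-!
# Rank functions and the rank function of `M(K_4)`

Everything about minors of matroids that we need is expressed through rank functions:
`HasK4 r` says that some contraction of `r` restricted to six elements is the rank function of
`M(K_4)`.  The core lemmas say that `HasK4` is inherited backwards along principal extension and
truncation.
-/

set_option autoImplicit false

open Set

namespace Pool.Agent.Helper45.K4

/-- Rank function of `M(K_4)`; its triangles are `012`, `034`, `135`, `245`. -/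
def rK4 (A : Finset (Fin 6)) : ℕ :=
  if A.card ≤ 2 then A.card
  else if A = {0, 1, 2} ∨ A = {0, 3, 4} ∨ A = {1, 3, 5} ∨ A = {2, 4, 5} then 2 else 3

/-- The four triangles. -/
def L (i : Fin 4) : Finset (Fin 6) :=
  if i = 0 then {0, 1, 2} else if i = 1 then {0, 3, 4} else if i = 2 then {1, 3, 5} else {2, 4, 5}

/-- The common element of two triangles. -/
def e (i j : Fin 4) : Fin 6 :=
  if (i = 0 ∧ j = 1) ∨ (i = 1 ∧ j = 0) then 0
  else if (i = 0 ∧ j = 2) ∨ (i = 2 ∧ j = 0) then 1
  else if (i = 0 ∧ j = 3) ∨ (i = 3 ∧ j = 0) then 2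
  else if (i = 1 ∧ j = 2) ∨ (i = 2 ∧ j = 1) then 3
  else if (i = 1 ∧ j = 3) ∨ (i = 3 ∧ j = 1) then 4
  else 5

variable {α : Type*}

/-- Abstract rank functions. -/
structure IsRk (r : Set α → ℕ) : Prop where
  empty : r ∅ = 0
  mono : ∀ {A B : Set α}, A ⊆ B → r A ≤ r B
  submod : ∀ A B : Set α, r (A ∪ B) + r (A ∩ B) ≤ r A + r B
  unit : ∀ x, r {x} ≤ 1
  loc : ∀ A B : Set α, (∀ b ∈ B, r (A ∪ {b}) ≤ r A) → r (A ∪ B) ≤ r A

/-- Some minor with respect to `r` is `M(K_4)`. -/
def HasK4 (r : Set α → ℕ) : Prop :=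
  ∃ (C : Set α) (x : Fin 6 → α), ∀ A : Finset (Fin 6), r (x '' A ∪ C) = rK4 A + r C

theorem IsRk.contract {r : Set α → ℕ} (h : IsRk r) (C : Set α) :
    IsRk (fun A => r (A ∪ C) - r C) where
  empty := by simp
  mono := fun {A B} hAB => Nat.sub_le_sub_right (h.mono (union_subset_union_left C hAB)) _
  submod := by
    intro A B
    have h1 := h.submod (A ∪ C) (B ∪ C)
    have h2 : (A ∪ C) ∪ (B ∪ C) = A ∪ B ∪ C := by
      ext x; simp; tauto
    have h3 : (A ∪ C) ∩ (B ∪ C) = A ∩ B ∪ C := by
      ext x; simp; tauto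
    rw [h2, h3] at h1
    have k1 : r C ≤ r (A ∪ B ∪ C) := h.mono subset_union_right
    have k2 : r C ≤ r (A ∩ B ∪ C) := h.mono subset_union_right
    have k3 : r C ≤ r (A ∪ C) := h.mono subset_union_right
    have k4 : r C ≤ r (B ∪ C) := h.mono subset_union_right
    try dsimp only
    omega
  unit := by
    intro x
    have h1 := h.submod {x} C
    have h2 := h.unit x
    try dsimp only
    omega
  loc := by
    intro A B hB
    have h1 : r ((A ∪ C) ∪ B) ≤ r (A ∪ C) := by
      apply h.loc
      intro b hb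
      have h2 := hB b hb
      have h3 : (A ∪ C) ∪ {b} = A ∪ {b} ∪ C := by
        ext x; simp; tauto
      rw [h3]
      have k1 : r C ≤ r (A ∪ {b} ∪ C) := h.mono subset_union_right
      have k2 : r C ≤ r (A ∪ C) := h.mono subset_union_right
      try dsimp only at h2
      omega
    have h3 : (A ∪ C) ∪ B = A ∪ B ∪ C := by
      ext x; simp; tauto
    rw [h3] at h1
    try dsimp only
    omega

theorem HasK4.of_contract {r : Set α → ℕ} (h : IsRk r) (C : Set α)
    (hk : HasK4 (fun A => r (A ∪ C) - r C)) : HasK4 r := by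
  obtain ⟨C', x, hx⟩ := hk
  refine ⟨C' ∪ C, x, fun A => ?_⟩
  have h1 := hx A
  try dsimp only at h1
  have h2 : x '' A ∪ C' ∪ C = x '' A ∪ (C' ∪ C) := by rw [union_assoc]
  rw [h2] at h1
  have k1 : r C ≤ r (x '' A ∪ (C' ∪ C)) := h.mono (subset_union_of_subset_right subset_union_right _)
  have k2 : r C ≤ r (C' ∪ C) := h.mono subset_union_right
  omega

section Core

variable {r : Set α → ℕ} (h : IsRk r) (x : Fin 6 → α) (F : Set α)

include h

theorem sub1 (A B : Finset (Fin 6)) :
    r (x '' ↑(A ∪ B)) + r (x '' ↑(A ∩ B)) ≤ r (x '' A) + r (x '' B) := by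
  have h1 := h.submod (x '' A) (x '' B)
  rw [Finset.coe_union, image_union]
  have h2 : r (x '' ↑(A ∩ B)) ≤ r (x '' A ∩ x '' B) := by
    apply h.mono
    rw [Finset.coe_inter]
    exact image_inter_subset _ _ _
  omega

theorem sub2 (A B : Finset (Fin 6)) :
    r (x '' ↑(A ∪ B) ∪ F) + r (x '' ↑(A ∩ B) ∪ F) ≤ r (x '' A ∪ F) + r (x '' B ∪ F) := by
  have h1 := h.submod (x '' A ∪ F) (x '' B ∪ F)
  have h2 : r (x '' ↑(A ∩ B) ∪ F) ≤ r ((x '' A ∪ F) ∩ (x '' B ∪ F)) := by
    apply h.mono
    rw [Finset.coe_inter]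
    apply union_subset
    · refine (image_inter_subset _ _ _).trans ?_
      exact inter_subset_inter subset_union_left subset_union_left
    · exact subset_inter subset_union_right subset_union_right
  have h3 : r (x '' ↑(A ∪ B) ∪ F) ≤ r ((x '' A ∪ F) ∪ (x '' B ∪ F)) := by
    apply h.mono
    rw [Finset.coe_union, image_union]
    intro y hy
    simp only [mem_union] at hy ⊢
    tauto
  omega

theorem sub3 (A B : Finset (Fin 6)) :
    r (x '' ↑(A ∪ B) ∪ F) + r (x '' ↑(A ∩ B)) ≤ r (x '' A ∪ F) + r (x '' B) := by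
  have h1 := h.submod (x '' A ∪ F) (x '' B)
  have h2 : r (x '' ↑(A ∩ B)) ≤ r ((x '' A ∪ F) ∩ (x '' B)) := by
    apply h.mono
    rw [Finset.coe_inter]
    exact (image_inter_subset _ _ _).trans (inter_subset_inter_left _ subset_union_left)
  have h3 : r (x '' ↑(A ∪ B) ∪ F) ≤ r ((x '' A ∪ F) ∪ (x '' B)) := by
    apply h.mono
    rw [Finset.coe_union, image_union]
    intro y hy
    simp only [mem_union] at hy ⊢
    tauto
  omega

/-- If the flat spanned by `F` has rank one, `F` may be replaced by one element of `F`. -/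
theorem exists_rank_one (hF : r F = 1) :
    ∃ f ∈ F, r {f} = 1 ∧ ∀ X, r (X ∪ F) = r (X ∪ {f}) := by
  have h1 : ∃ f ∈ F, r {f} = 1 := by
    by_contra hcon
    push Not at hcon
    have h2 := h.loc ∅ F (fun b hb => by
      rw [empty_union, h.empty]
      have := hcon b hb
      have := h.unit b
      omega)
    rw [empty_union, h.empty] at h2
    omega
  obtain ⟨f, hf, hf1⟩ := h1
  refine ⟨f, hf, hf1, fun X => le_antisymm ?_ (h.mono ?_)⟩
  · have h2 := h.submod (X ∪ {f}) F
    have h3 : r {f} ≤ r ((X ∪ {f}) ∩ F) := by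
      apply h.mono
      rintro y rfl
      exact ⟨Or.inr rfl, hf⟩
    have h4 : r (X ∪ F) ≤ r (X ∪ {f} ∪ F) := by
      apply h.mono
      intro y hy
      simp only [mem_union] at hy ⊢
      tauto
    omega
  · apply union_subset_union_right
    rintro y rfl
    exact hf

/-- Core case: the new element is an element of the `M(K_4)`-minor. -/
theorem core_i (g : Fin 6)
    (h1 : ∀ A : Finset (Fin 6), g ∉ A → r (x '' A) = rK4 A)
    (h2 : ∀ A : Finset (Fin 6), g ∉ A →
      min (r (x '' A) + 1) (r (x '' A ∪ F)) = rK4 (insert g A)) : HasK4 r := by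
  have hcomb : ∀ g : Fin 6, ∃ A B : Finset (Fin 6), g ∉ A ∧ g ∉ B ∧ rK4 A = 2 ∧ rK4 B = 2 ∧
      rK4 (insert g A) = 2 ∧ rK4 (insert g B) = 2 ∧ rK4 (A ∪ B) = 3 := by decide
  obtain ⟨A, B, hgA, hgB, hA, hB, hA', hB', hAB⟩ := hcomb g
  have a1 := h1 A hgA
  have a2 := h2 A hgA
  have b1 := h1 B hgB
  have b2 := h2 B hgB
  have ab := h1 (A ∪ B) (by simp [hgA, hgB])
  have hsub := sub2 h x F A B
  have hm : r (x '' ↑(A ∪ B)) ≤ r (x '' ↑(A ∪ B) ∪ F) := h.mono subset_union_left
  have hm2 : r F ≤ r (x '' ↑(A ∩ B) ∪ F) := h.mono subset_union_right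
  have e1 := h2 ∅ (by simp)
  have e2 : rK4 (insert g ∅) = 1 := by
    have : ∀ g : Fin 6, rK4 (insert g ∅) = 1 := by decide
    exact this g
  rw [e2] at e1
  simp only [Finset.coe_empty, image_empty, empty_union] at e1
  rw [h.empty] at e1
  have hF : r F = 1 := by omega
  obtain ⟨f, hf, hf1, hX⟩ := exists_rank_one h F hF
  refine ⟨∅, Function.update x g f, fun A => ?_⟩
  rw [union_empty, h.empty, add_zero]
  have himg : ∀ A : Finset (Fin 6), g ∉ A → Function.update x g f '' A = x '' A := by
    intro A hA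
    apply image_congr
    intro y hy
    have : y ≠ g := fun h => hA (h ▸ hy)
    simp [Function.update_of_ne this]
  by_cases hgA : g ∈ A
  · have hAe : A = insert g (A.erase g) := (Finset.insert_erase hgA).symm
    have hg' : g ∉ A.erase g := Finset.notMem_erase g A
    have e3 := h2 (A.erase g) hg'
    rw [← hAe] at e3
    have e4 : Function.update x g f '' A = x '' ↑(A.erase g) ∪ {f} := by
      conv_lhs => rw [hAe]
      rw [Finset.coe_insert, image_insert_eq, himg _ hg']
      simp only [Function.update_self]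
      rw [union_singleton]
    rw [e4, ← hX]
    have e5 : r (x '' ↑(A.erase g) ∪ F) ≤ r (x '' ↑(A.erase g)) + 1 := by
      have := h.submod (x '' ↑(A.erase g)) F
      omega
    omega
  · rw [himg A hgA, h1 A hgA]

/-- Core case: the new element is contracted. -/
theorem core_ii (hF : 1 ≤ r F)
    (h1 : ∀ A : Finset (Fin 6), min (r (x '' A) + 1) (r (x '' A ∪ F)) = rK4 A + 1) :
    HasK4 r := by
  have hle : ∀ A : Finset (Fin 6), r (x '' A) ≤ r (x '' A ∪ F) := fun A =>
    h.mono subset_union_left
  have hle2 : ∀ A : Finset (Fin 6), r F ≤ r (x '' A ∪ F) := fun A => h.mono subset_union_right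
  have hlow : ∀ A : Finset (Fin 6), rK4 A ≤ r (x '' A) := fun A => by
    have := h1 A
    omega
  have hD := h1 Finset.univ
  have hDv : rK4 Finset.univ = 3 := by decide
  rw [hDv] at hD
  -- the easy case: `D` has rank three
  by_cases hD3 : r (x '' ↑(Finset.univ : Finset (Fin 6))) = 3
  · refine ⟨∅, x, fun A => ?_⟩
    rw [union_empty, h.empty, add_zero]
    have k := sub3 h x F A Finset.univ
    rw [show A ∪ Finset.univ = Finset.univ from by simp, Finset.inter_univ] at k
    have := h1 A
    omega
  have hD4 : r (x '' ↑(Finset.univ : Finset (Fin 6))) = 4 := by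
    have := hlow Finset.univ
    have := hle Finset.univ
    omega
  have hDF4 : r (x '' ↑(Finset.univ : Finset (Fin 6)) ∪ F) = 4 := by omega
  -- rank one case
  by_cases hF1 : r F = 1
  · obtain ⟨f, hf, hf1, hX⟩ := exists_rank_one h F hF1
    refine ⟨{f}, x, fun A => ?_⟩
    rw [← hX, hf1]
    have e5 : r (x '' A ∪ F) ≤ r (x '' A) + 1 := by
      have := h.submod (x '' A) F
      omega
    have := h1 A
    omega
  have hF2 : 2 ≤ r F := by omega
  -- triangles
  have tri : ∀ i, r (x '' L i) = 2 ∨ (r (x '' L i) = 3 ∧ r (x '' L i ∪ F) = 3) := by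
    intro i
    have k1 := h1 (L i)
    have k2 : rK4 (L i) = 2 := by
      have : ∀ i, rK4 (L i) = 2 := by decide
      exact this i
    have := hlow (L i)
    have := hle (L i)
    omega
  -- (A)
  have hA : ∀ i j k : Fin 4, i ≠ j → i ≠ k → j ≠ k → r (x '' L i) = 2 → r (x '' L j) = 2 →
      r (x '' L k) = 2 → False := by
    intro i j k hij hik hjk hi hj hk
    have c1 : ∀ i j k : Fin 4, i ≠ j → i ≠ k → j ≠ k → L i ∪ L j ∪ L k = Finset.univ ∧
        rK4 (L i ∩ L j) = 1 ∧ rK4 ((L i ∪ L j) ∩ L k) = 2 := by decide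
    obtain ⟨c2, c3, c4⟩ := c1 i j k hij hik hjk
    have s1 := sub1 h x (L i) (L j)
    have s2 := sub1 h x (L i ∪ L j) (L k)
    rw [c2] at s2
    have l1 := hlow (L i ∩ L j)
    have l2 := hlow ((L i ∪ L j) ∩ L k)
    omega
  -- (B)
  have hB : ∀ i j k : Fin 4, i ≠ j → i ≠ k → j ≠ k → r (x '' L k) = 2 →
      r (x '' ↑(L i ∪ L j) ∪ F) ≤ 3 → False := by
    intro i j k hij hik hjk hk hp
    have c1 : ∀ i j k : Fin 4, i ≠ j → i ≠ k → j ≠ k → L i ∪ L j ∪ L k = Finset.univ ∧
        rK4 ((L i ∪ L j) ∩ L k) = 2 := by decide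
    obtain ⟨c2, c4⟩ := c1 i j k hij hik hjk
    have s2 := sub3 h x F (L i ∪ L j) (L k)
    rw [c2] at s2
    have l2 := hlow ((L i ∪ L j) ∩ L k)
    omega
  -- (C)
  have hC : ∀ i j k : Fin 4, i ≠ j → i ≠ k → j ≠ k → 3 ≤ r (x '' L j ∪ F) →
      r (x '' ↑(L i ∪ L j) ∪ F) ≤ 3 → r (x '' ↑(L j ∪ L k) ∪ F) ≤ 3 → False := by
    intro i j k hij hik hjk hj hp hq
    have c1 : ∀ i j k : Fin 4, i ≠ j → i ≠ k → j ≠ k →
        (L i ∪ L j) ∪ (L j ∪ L k) = Finset.univ ∧ L j ⊆ (L i ∪ L j) ∩ (L j ∪ L k) := by decide
    obtain ⟨c2, c4⟩ := c1 i j k hij hik hjk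
    have s2 := sub2 h x F (L i ∪ L j) (L j ∪ L k)
    rw [c2] at s2
    have l2 : r (x '' L j ∪ F) ≤ r (x '' ↑((L i ∪ L j) ∩ (L j ∪ L k)) ∪ F) := by
      apply h.mono
      apply union_subset_union_left
      apply image_mono
      exact_mod_cast c4
    omega
  -- (D)
  have hDd : ∀ i j : Fin 4, i ≠ j → r (x '' L i ∪ F) = 3 → r (x '' L j ∪ F) = 3 →
      r (x '' ↑(L i ∪ L j) ∪ F) ≤ 3 ∨ r (x '' ↑({e i j} : Finset (Fin 6)) ∪ F) ≤ 2 := by
    intro i j hij hi hj
    have c1 : ∀ i j : Fin 4, i ≠ j → L i ∩ L j = {e i j} := by decide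
    have s2 := sub2 h x F (L i) (L j)
    rw [c1 i j hij] at s2
    omega
  -- accumulation of elements of the line spanned by `F`
  have acc : ∀ A B : Finset (Fin 6), r (x '' A ∪ F) ≤ 2 → r (x '' B ∪ F) ≤ 2 →
      r (x '' ↑(A ∪ B) ∪ F) ≤ 2 := by
    intro A B hA hB
    have s2 := sub2 h x F A B
    have := hle2 (A ∩ B)
    omega
  -- the constructive case
  have hcons : ∀ i j k l : Fin 4, i ≠ j → i ≠ k → i ≠ l → j ≠ k → j ≠ l → k ≠ l →
      r (x '' L k) = 2 → r (x '' L l) = 2 → r (x '' ↑({e i j} : Finset (Fin 6)) ∪ F) ≤ 2 →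
      HasK4 r := by
    intro i j k l hij hik hil hjk hjl hkl hk hl hg
    have c1 : ∀ i j k l : Fin 4, i ≠ j → i ≠ k → i ≠ l → j ≠ k → j ≠ l → k ≠ l →
        L k ∪ L l = Finset.univ.erase (e i j) ∧ rK4 (L k ∩ L l) = 1 ∧ rK4 {e i j} = 1 := by
      decide
    obtain ⟨c2, c3, c4⟩ := c1 i j k l hij hik hil hjk hjl hkl
    set g := e i j with hgdef
    have hrF : r F = 2 := by
      have := hle2 {g}
      omega
    have hgF : r (x '' ↑({g} : Finset (Fin 6)) ∪ F) = 2 := by
      have := hle2 {g}
      omega
    have hg1 : r {x g} = 1 := by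
      have h4 := h.unit (x g)
      have h5 := hlow {g}
      simp only [Finset.coe_singleton, image_singleton] at h5
      omega
    have hgF' : r ({x g} ∪ F) = 2 := by
      simpa using hgF
    -- the plane `Q = D - g`
    have hQ : r (x '' ↑(Finset.univ.erase g)) ≤ 3 := by
      have s1 := sub1 h x (L k) (L l)
      rw [c2] at s1
      have l1 := hlow (L k ∩ L l)
      omega
    -- the element `f`
    have hf : ∃ f ∈ F, r {x g, f} = 2 := by
      by_contra hcon
      push Not at hcon
      have hup : ∀ f, r {x g, f} ≤ 2 := by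
        intro f
        have s := h.submod {x g} {f}
        have := h.unit f
        have e1 : ({x g} : Set α) ∪ {f} = {x g, f} := by
          ext y; simp [or_comm]
        rw [e1] at s
        omega
      have h2 := h.loc {x g} F (fun b hb => by
        have e1 : ({x g} : Set α) ∪ {b} = {x g, b} := by
          ext y; simp [or_comm]
        rw [e1, hg1]
        have := hcon b hb
        have := hup b
        omega)
      omega
    obtain ⟨f, hfF, hf2⟩ := hf
    have hspan : ∀ X : Set α, r (X ∪ {x g, f}) = r (X ∪ ({x g} ∪ F)) := by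
      intro X
      apply le_antisymm
      · apply h.mono
        apply union_subset_union_right
        rintro y (rfl | rfl)
        · exact Or.inl rfl
        · exact Or.inr hfF
      · have s := h.submod (X ∪ {x g, f}) ({x g} ∪ F)
        have h3 : r {x g, f} ≤ r ((X ∪ {x g, f}) ∩ ({x g} ∪ F)) := by
          apply h.mono
          rintro y (rfl | rfl)
          · exact ⟨Or.inr (Or.inl rfl), Or.inl rfl⟩
          · exact ⟨Or.inr (Or.inr rfl), Or.inr hfF⟩
        have h4 : r (X ∪ ({x g} ∪ F)) ≤ r (X ∪ {x g, f} ∪ ({x g} ∪ F)) := by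
          apply h.mono
          intro y hy
          simp only [mem_union] at hy ⊢
          tauto
        omega
    have himg : ∀ A : Finset (Fin 6), g ∉ A → Function.update x g f '' A = x '' A := by
      intro A hA
      apply image_congr
      intro y hy
      have : y ≠ g := fun h => hA (h ▸ hy)
      simp [Function.update_of_ne this]
    refine ⟨{x g}, Function.update x g f, fun A => ?_⟩
    rw [hg1]
    by_cases hgA : g ∈ A
    · have hAe : A = insert g (A.erase g) := (Finset.insert_erase hgA).symm
      have hg' : g ∉ A.erase g := Finset.notMem_erase g A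
      have e4 : Function.update x g f '' A ∪ {x g} = x '' ↑(A.erase g) ∪ {x g, f} := by
        conv_lhs => rw [hAe]
        rw [Finset.coe_insert, image_insert_eq, himg _ hg']
        simp only [Function.update_self]
        ext y
        simp only [mem_union, mem_insert_iff, mem_singleton_iff]
        tauto
      have e5 : x '' ↑(A.erase g) ∪ ({x g} ∪ F) = x '' A ∪ F := by
        conv_rhs => rw [hAe]
        rw [Finset.coe_insert, image_insert_eq]
        ext y
        simp only [mem_union, mem_insert_iff, mem_singleton_iff]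
        tauto
      rw [e4, hspan, e5]
      have s := h.submod (x '' A) ({x g} ∪ F)
      have h3 : r {x g} ≤ r (x '' A ∩ ({x g} ∪ F)) := by
        apply h.mono
        rintro y rfl
        exact ⟨⟨g, hgA, rfl⟩, Or.inl rfl⟩
      have h4 : r (x '' A ∪ F) ≤ r (x '' A ∪ ({x g} ∪ F)) := by
        apply h.mono
        intro y hy
        simp only [mem_union] at hy ⊢
        tauto
      have := h1 A
      omega
    · rw [himg A hgA]
      have e6 : x '' A ∪ {x g} = x '' ↑(insert g A) := by
        rw [Finset.coe_insert, image_insert_eq, union_singleton]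
      rw [e6]
      have c5 : insert g A ∪ Finset.univ.erase g = Finset.univ := by
        ext y
        simp only [Finset.mem_union, Finset.mem_insert, Finset.mem_erase, Finset.mem_univ]
        tauto
      have c6 : insert g A ∩ Finset.univ.erase g = A := by
        ext y
        simp only [Finset.mem_inter, Finset.mem_insert, Finset.mem_erase, Finset.mem_univ]
        constructor
        · rintro ⟨h1 | h1, h2, -⟩
          · exact absurd h1 h2
          · exact h1
        · intro hy
          exact ⟨Or.inr hy, fun h => hgA (h ▸ hy), trivial⟩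
      have s1 := sub1 h x (insert g A) (Finset.univ.erase g)
      rw [c5, c6] at s1
      have s2 : r (x '' ↑(insert g A)) ≤ r (x '' A) + 1 := by
        rw [← e6]
        have := h.submod (x '' A) {x g}
        omega
      -- `F` is not in the plane `Q`
      have s3 := sub2 h x F (Finset.univ.erase g) {g}
      have c7 : Finset.univ.erase g ∪ {g} = Finset.univ := by
        ext y
        simp only [Finset.mem_union, Finset.mem_singleton, Finset.mem_erase, Finset.mem_univ]
        tauto
      rw [c7] at s3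
      have := hle2 (Finset.univ.erase g ∩ {g})
      have s4 := sub3 h x F A (Finset.univ.erase g)
      have c8 : A ∩ Finset.univ.erase g = A := by
        ext y
        simp only [Finset.mem_inter, Finset.mem_erase, Finset.mem_univ]
        constructor
        · exact fun hy => hy.1
        · intro hy
          exact ⟨hy, fun h => hgA (h ▸ hy), trivial⟩
      rw [c8] at s4
      have s5 : r (x '' ↑(Finset.univ.erase g) ∪ F) ≤ r (x '' ↑(A ∪ Finset.univ.erase g) ∪ F) := by
        apply h.mono
        apply union_subset_union_left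
        apply image_mono
        simp
      have := h1 A
      omega
  -- two lines
  have two : ∀ k l : Fin 4, k ≠ l → r (x '' L k) = 2 → r (x '' L l) = 2 → HasK4 r := by
    intro k l hkl hk hl
    have c : ∀ k l : Fin 4, k ≠ l → ∃ i j : Fin 4, i ≠ j ∧ i ≠ k ∧ i ≠ l ∧ j ≠ k ∧ j ≠ l := by
      decide
    obtain ⟨i, j, hij, hik, hil, hjk, hjl⟩ := c k l hkl
    have ti : r (x '' L i ∪ F) = 3 := by
      rcases tri i with t | t
      · exact (hA i k l hik hil hkl t hk hl).elim
      · exact t.2
    have tj : r (x '' L j ∪ F) = 3 := by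
      rcases tri j with t | t
      · exact (hA j k l hjk hjl hkl t hk hl).elim
      · exact t.2
    rcases hDd i j hij ti tj with t | t
    · exact (hB i j k hij hik hjk hk t).elim
    · exact hcons i j k l hij hik hil hjk hjl hkl hk hl t
  -- one line
  have one : ∀ k : Fin 4, r (x '' L k) = 2 → (∀ i, i ≠ k → r (x '' L i ∪ F) = 3) → False := by
    intro k hk hall
    have c : ∀ k : Fin 4, ∃ i j l : Fin 4, i ≠ j ∧ i ≠ l ∧ j ≠ l ∧ i ≠ k ∧ j ≠ k ∧ l ≠ k ∧
        rK4 ({e i j} ∪ {e i l} ∪ {e j l}) = 3 := by decide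
    obtain ⟨i, j, l, hij, hil, hjl, hik, hjk, hlk, hr⟩ := c k
    have q1 := (hDd i j hij (hall i hik) (hall j hjk)).resolve_left (hB i j k hij hik hjk hk)
    have q2 := (hDd i l hil (hall i hik) (hall l hlk)).resolve_left (hB i l k hil hik hlk hk)
    have q3 := (hDd j l hjl (hall j hjk) (hall l hlk)).resolve_left (hB j l k hjl hjk hlk hk)
    have q := acc _ _ (acc _ _ q1 q2) q3
    have l1 := hlow ({e i j} ∪ {e i l} ∪ {e j l})
    have l2 := hle ({e i j} ∪ {e i l} ∪ {e j l})
    omega
  -- no line
  have zero : (∀ i, r (x '' L i) = 3 ∧ r (x '' L i ∪ F) = 3) → False := by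
    intro hall
    have hp : ∀ i j k : Fin 4, i ≠ j → i ≠ k → j ≠ k →
        r (x '' ↑(L i ∪ L j) ∪ F) ≤ 3 → r (x '' ↑({e j k} : Finset (Fin 6)) ∪ F) ≤ 2 := by
      intro i j k hij hik hjk hp
      refine (hDd j k hjk (hall j).2 (hall k).2).resolve_left ?_
      exact hC i j k hij hik hjk (hall j).2.ge hp
    have hsymm : ∀ i j : Fin 4, r (x '' ↑(L i ∪ L j) ∪ F) = r (x '' ↑(L j ∪ L i) ∪ F) := by
      intro i j
      rw [Finset.union_comm]
    -- if `i ~ j` then four elements lie on the line
    have four : ∀ i j : Fin 4, i ≠ j → r (x '' ↑(L i ∪ L j) ∪ F) ≤ 3 → False := by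
      intro i j hij hpij
      have c : ∀ i j : Fin 4, i ≠ j → ∃ k l : Fin 4, i ≠ k ∧ i ≠ l ∧ j ≠ k ∧ j ≠ l ∧
          rK4 ({e i k} ∪ {e i l} ∪ {e j k} ∪ {e j l}) = 3 := by decide
      obtain ⟨k, l, hik, hil, hjk, hjl, hr⟩ := c i j hij
      have hpji := hpij
      rw [hsymm] at hpji
      have q1 := hp j i k hij.symm hjk hik hpji
      have q2 := hp j i l hij.symm hjl hil hpji
      have q3 := hp i j k hij hik hjk hpij
      have q4 := hp i j l hij hil hjl hpij
      have q := acc _ _ (acc _ _ (acc _ _ q1 q2) q3) q4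
      have l1 := hlow ({e i k} ∪ {e i l} ∪ {e j k} ∪ {e j l})
      have l2 := hle ({e i k} ∪ {e i l} ∪ {e j k} ∪ {e j l})
      omega
    have q1 := (hDd 0 1 (by decide) (hall 0).2 (hall 1).2).resolve_left (four 0 1 (by decide))
    have q2 := (hDd 0 2 (by decide) (hall 0).2 (hall 2).2).resolve_left (four 0 2 (by decide))
    have q3 := (hDd 0 3 (by decide) (hall 0).2 (hall 3).2).resolve_left (four 0 3 (by decide))
    have q := acc _ _ (acc _ _ q1 q2) q3
    have c : ({e 0 1} ∪ {e 0 2} ∪ {e 0 3} : Finset (Fin 6)) = L 0 := by decide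
    rw [c, (hall 0).2] at q
    omega
  -- final case distinction
  by_cases hex : ∃ k, r (x '' L k) = 2
  · obtain ⟨k, hk⟩ := hex
    by_cases hex2 : ∃ l, l ≠ k ∧ r (x '' L l) = 2
    · obtain ⟨l, hlk, hl⟩ := hex2
      exact two k l hlk.symm hk hl
    · push Not at hex2
      exfalso
      refine one k hk fun i hik => ?_
      rcases tri i with t | t
      · exact (hex2 i hik t).elim
      · exact t.2
  · push Not at hex
    exfalso
    refine zero fun i => ?_
    rcases tri i with t | t
    · exact (hex i t).elim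
    · exact t

end Core

/-- The rank function of the principal extension of `r` along `F` by the new element `p`. -/
noncomputable def princ (r : Set α → ℕ) (F : Set α) (p : α) (X : Set α) : ℕ :=
  open Classical in
  if p ∈ X then min (r (X \ {p}) + 1) (r (X \ {p} ∪ F)) else r X

/-- **Principal extension does not create `M(K_4)`-minors.** -/
theorem HasK4.of_princ {r : Set α → ℕ} (h : IsRk r) (F : Set α) (p : α)
    (hk : HasK4 (princ r F p)) : HasK4 r := by
  classical
  obtain ⟨C, x, hx⟩ := hk
  have hone : ∀ g : Fin 6, rK4 {g} = 1 := by decide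
  have htwo : ∀ g g' : Fin 6, g ≠ g' → rK4 {g, g'} = 2 := by decide
  have hxC : ∀ g, x g ∉ C := by
    intro g hg
    have h1 := hx {g}
    rw [hone] at h1
    simp only [Finset.coe_singleton, image_singleton] at h1
    have : ({x g} : Set α) ∪ C = C := by
      rw [union_eq_right]
      simpa using hg
    rw [this] at h1
    omega
  have hinj : Function.Injective x := by
    intro g g' hgg
    by_contra hne
    have h1 := hx {g}
    have h2 := hx {g, g'}
    rw [hone] at h1
    rw [htwo g g' hne] at h2
    have : x '' ↑({g, g'} : Finset (Fin 6)) = x '' ↑({g} : Finset (Fin 6)) := by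
      ext y
      simp [hgg, eq_comm]
    rw [this] at h2
    omega
  by_cases hpC : p ∈ C
  · -- the new element is contracted
    have hxp : ∀ g, x g ≠ p := fun g hg => hxC g (hg ▸ hpC)
    have hset : ∀ A : Finset (Fin 6), (x '' A ∪ C) \ {p} = x '' A ∪ C \ {p} := by
      intro A
      ext y
      simp only [mem_sdiff, mem_union, mem_singleton_iff]
      constructor
      · rintro ⟨h1 | h1, h2⟩
        · exact Or.inl h1
        · exact Or.inr ⟨h1, h2⟩
      · rintro (h1 | ⟨h1, h2⟩)
        · refine ⟨Or.inl h1, ?_⟩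
          obtain ⟨g, -, rfl⟩ := h1
          exact hxp g
        · exact ⟨Or.inr h1, h2⟩
    set C₀ := C \ {p} with hC₀
    have hval : ∀ A : Finset (Fin 6), min (r (x '' A ∪ C₀) + 1) (r (x '' A ∪ C₀ ∪ F)) =
        rK4 A + min (r C₀ + 1) (r (C₀ ∪ F)) := by
      intro A
      have h1 := hx A
      unfold princ at h1
      rw [if_pos (mem_union_right _ hpC), if_pos hpC, hset] at h1
      exact h1
    apply HasK4.of_contract h C₀
    have hρ := h.contract C₀
    by_cases hF : r (C₀ ∪ F) = r C₀
    · refine ⟨∅, x, fun A => ?_⟩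
      have h1 := hval A
      have h2 : r (x '' A ∪ C₀ ∪ F) = r (x '' A ∪ C₀) := by
        apply le_antisymm _ (h.mono subset_union_left)
        have s := h.submod (x '' A ∪ C₀) (C₀ ∪ F)
        have h3 : r C₀ ≤ r ((x '' A ∪ C₀) ∩ (C₀ ∪ F)) := h.mono (subset_inter
          subset_union_right subset_union_left)
        have h4 : r (x '' A ∪ C₀ ∪ F) ≤ r (x '' A ∪ C₀ ∪ (C₀ ∪ F)) := by
          apply h.mono
          intro y hy
          simp only [mem_union] at hy ⊢
          tauto
        omega
      have h5 : r C₀ ≤ r (x '' A ∪ C₀) := h.mono subset_union_right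
      simp only [union_empty, empty_union]
      omega
    · have hF1 : r C₀ + 1 ≤ r (C₀ ∪ F) := by
        have : r C₀ ≤ r (C₀ ∪ F) := h.mono subset_union_left
        omega
      apply core_ii hρ x F
      · rw [union_comm F C₀]
        omega
      · intro A
        have h1 := hval A
        have e1 : x '' A ∪ F ∪ C₀ = x '' A ∪ C₀ ∪ F := by
          ext y
          simp only [mem_union]
          tauto
        have h5 : r C₀ ≤ r (x '' A ∪ C₀) := h.mono subset_union_right
        have h6 : r C₀ ≤ r (x '' A ∪ C₀ ∪ F) := h5.trans (h.mono subset_union_left)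
        try dsimp only
        rw [e1]
        omega
  · by_cases hg : ∃ g, x g = p
    · -- the new element is in the minor
      obtain ⟨g, hg⟩ := hg
      apply HasK4.of_contract h C
      have hρ := h.contract C
      have hnot : ∀ A : Finset (Fin 6), g ∉ A → p ∉ x '' A ∪ C := by
        rintro A hA (⟨g', hg', hgp⟩ | h1)
        · have : g' = g := hinj (hgp.trans hg.symm)
          exact hA (this ▸ hg')
        · exact hpC h1
      have v1 : ∀ A : Finset (Fin 6), g ∉ A → r (x '' A ∪ C) = rK4 A + r C := by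
        intro A hA
        have h1 := hx A
        unfold princ at h1
        rwa [if_neg (hnot A hA), if_neg hpC] at h1
      have v2 : ∀ A : Finset (Fin 6), g ∉ A →
          min (r (x '' A ∪ C) + 1) (r (x '' A ∪ C ∪ F)) = rK4 (insert g A) + r C := by
        intro A hA
        have h1 := hx (insert g A)
        have e1 : x '' ↑(insert g A) ∪ C = insert p (x '' A ∪ C) := by
          rw [Finset.coe_insert, image_insert_eq, hg, insert_union]
        have e2 : insert p (x '' A ∪ C) \ {p} = x '' A ∪ C := by
          rw [insert_sdiff_self_of_notMem (hnot A hA)]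
        unfold princ at h1
        rw [e1, if_pos (mem_insert _ _), if_neg hpC, e2] at h1
        exact h1
      apply core_i hρ x F g
      · intro A hA
        have := v1 A hA
        try dsimp only
        omega
      · intro A hA
        have h1 := v1 A hA
        have h2 := v2 A hA
        have e1 : x '' A ∪ F ∪ C = x '' A ∪ C ∪ F := by
          ext y
          simp only [mem_union]
          tauto
        have h6 : r (x '' A ∪ C) ≤ r (x '' A ∪ C ∪ F) := h.mono subset_union_left
        try dsimp only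
        rw [e1]
        omega
    · push Not at hg
      refine ⟨C, x, fun A => ?_⟩
      have h1 := hx A
      unfold princ at h1
      rw [if_neg, if_neg hpC] at h1
      · exact h1
      · rintro (⟨g', hg', hgp⟩ | h1)
        · exact hg g' hgp
        · exact hpC h1

/-- **Truncation does not create `M(K_4)`-minors.** -/
theorem HasK4.of_trunc {r : Set α → ℕ} (h : IsRk r) (t : ℕ)
    (hk : HasK4 (fun X => min (r X) t)) : HasK4 r := by
  obtain ⟨C, x, hx⟩ := hk
  apply HasK4.of_contract h C
  have hρ := h.contract C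
  have hc : ∀ A : Finset (Fin 6), r C ≤ r (x '' A ∪ C) := fun A => h.mono subset_union_right
  have hDv : rK4 Finset.univ = 3 := by decide
  have hD := hx Finset.univ
  rw [hDv] at hD
  try dsimp only at hD
  have hCt : r C < t := by
    by_contra hcon
    have := hc Finset.univ
    omega
  have hval : ∀ A : Finset (Fin 6), rK4 A = min (r (x '' A ∪ C) - r C) (t - r C) := by
    intro A
    have k1 := hx A
    have k2 := hc A
    dsimp only at k1
    omega
  refine ⟨∅, x, fun A => ?_⟩
  simp only [union_empty, empty_union, Nat.sub_self, add_zero]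
  by_cases hDD : r (x '' ↑(Finset.univ : Finset (Fin 6)) ∪ C) ≤ t
  · have h1 := hval A
    have h2 : r (x '' A ∪ C) ≤ r (x '' ↑(Finset.univ : Finset (Fin 6)) ∪ C) := by
      apply h.mono
      apply union_subset_union_left
      apply image_mono
      simp
    omega
  · exfalso
    have ht : t - r C = 3 := by
      have := hval Finset.univ
      rw [hDv] at this
      omega
    have tri : ∀ i, r (x '' L i ∪ C) - r C = 2 := by
      intro i
      have k2 : rK4 (L i) = 2 := by
        have : ∀ i, rK4 (L i) = 2 := by decide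
        exact this i
      have := hval (L i)
      omega
    have hlow : ∀ A : Finset (Fin 6), rK4 A ≤ r (x '' A ∪ C) - r C := by
      intro A
      have := hval A
      omega
    have c1 : L 0 ∪ L 1 ∪ L 2 = Finset.univ ∧
        rK4 (L 0 ∩ L 1) = 1 ∧ rK4 ((L 0 ∪ L 1) ∩ L 2) = 2 := by decide
    obtain ⟨c2, c3, c4⟩ := c1
    have s1 := sub1 hρ x (L 0) (L 1)
    have s2 := sub1 hρ x (L 0 ∪ L 1) (L 2)
    rw [c2] at s2
    have l1 := hlow (L 0 ∩ L 1)
    have l2 := hlow ((L 0 ∪ L 1) ∩ L 2)
    have t0 := tri 0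
    have t1 := tri 1
    have t2 := tri 2
    try dsimp only at s1 s2
    omega

end Pool.Agent.Helper45.K4
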