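import Mathlib
import Pool.Agent.Helper45.K4.Core

/-!
# Rank functions of finite-rank matroids, minors and duals
-/

set_option autoImplicit false

open Set Matroid

namespace Pool.Agent.Helper45.K4

variable {α β : Type*}

/-- Natural-number valued rank. -/
noncomputable def rk (M : Matroid α) (X : Set α) : ℕ := (M.eRk X).toNat

theorem coe_rk (M : Matroid α) [M.RankFinite] (X : Set α) : (rk M X : ℕ∞) = M.eRk X :=
  ENat.natCast_toNat (M.isRkFinite_set X).eRk_lt_top.ne

theorem isRk_rk (M : Matroid α) [M.RankFinite] : IsRk (rk M) where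
  empty := by simp [rk]
  mono := by
    intro A B h
    have h1 := M.eRk_mono h
    rw [← coe_rk, ← coe_rk] at h1
    exact_mod_cast h1
  submod := by
    intro A B
    have h1 := M.eRk_inter_add_eRk_union_le A B
    simp only [← coe_rk] at h1
    have h2 : rk M (A ∩ B) + rk M (A ∪ B) ≤ rk M A + rk M B := by exact_mod_cast h1
    omega
  unit := by
    intro x
    have h1 := M.eRk_singleton_le x
    rw [← coe_rk] at h1
    exact_mod_cast h1
  loc := by
    intro A B h
    have h1 : M.eRk A = M.eRk (A ∪ B) := by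
      apply Matroid.eRk_eq_of_eRk_insert_le_forall subset_union_left
      rintro e ⟨he | he, he'⟩
      · exact absurd he he'
      · have := h e he
        rw [← union_singleton, ← coe_rk, ← coe_rk]
        exact_mod_cast this
    have h2 : rk M (A ∪ B) = rk M A := by
      unfold rk
      rw [h1]
    exact h2.le

theorem eRk_contract (M : Matroid α) (C X : Set α) :
    (M ／ C).eRk X + M.eRk C = M.eRk (X ∪ C) := by
  obtain ⟨I, hI⟩ := M.exists_isBasis' C
  obtain ⟨K, hK, hIK⟩ := hI.indep.subset_isBasis'_of_subset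
    (hI.subset.trans (subset_union_right (s := X)))
  have hKC : K ∩ C = I := by
    apply (hI.eq_of_subset_indep (hK.indep.inter_right C) (subset_inter hIK hI.subset)
      inter_subset_right).symm
  have h1 : (M ／ C).IsBasis' (K \ C) ((X ∪ C) \ C) := by
    apply hK.contract_isBasis' hI
    apply hK.indep.subset
    apply union_subset sdiff_subset hIK
  have h2 : (M ／ C).eRk X = (M ／ C).eRk ((X ∪ C) \ C) := by
    rw [← (M ／ C).eRk_inter_ground X, ← (M ／ C).eRk_inter_ground ((X ∪ C) \ C)]
    congr 1
    rw [Matroid.contract_ground]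
    ext y
    simp only [mem_inter_iff, mem_sdiff, mem_union]
    tauto
  rw [h2, ← h1.encard_eq_eRk, ← hI.encard_eq_eRk, ← hK.encard_eq_eRk, ← hKC]
  exact encard_sdiff_add_encard_inter K C

theorem rk_contract (M : Matroid α) [M.RankFinite] (C X : Set α) :
    rk (M ／ C) X + rk M C = rk M (X ∪ C) := by
  have h := eRk_contract M C X
  rw [← coe_rk, ← coe_rk, ← coe_rk] at h
  exact_mod_cast h

theorem rk_restrict (M : Matroid α) (R X : Set α) : rk (M ↾ R) X = rk M (X ∩ R) := by
  unfold rk
  rw [M.restrict_eRk_eq']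

theorem rk_inter_ground (M : Matroid α) (X : Set α) : rk M (X ∩ M.E) = rk M X := by
  unfold rk
  rw [M.eRk_inter_ground]

theorem rk_dual (M : Matroid α) [M.Finite] (X : Set α) (hX : X ⊆ M.E) :
    rk M✶ X + rk M M.E = rk M (M.E \ X) + X.ncard := by
  have h := M.eRk_dual_add_eRank X hX
  rw [M.eRank_def, ← coe_rk, ← coe_rk, ← coe_rk,
    ← (M.ground_finite.subset hX).cast_ncard_eq] at h
  exact_mod_cast h

/-! ### Consequences of `HasK4` for the chosen elements -/

theorem rK4_single : ∀ g : Fin 6, rK4 {g} = 1 := by decide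

theorem rK4_pair : ∀ g g' : Fin 6, g ≠ g' → rK4 {g, g'} = 2 := by decide

theorem rK4_empty : rK4 ∅ = 0 := by decide

theorem k4_notMem {r : Set α → ℕ} {C : Set α} {x : Fin 6 → α}
    (h : ∀ A : Finset (Fin 6), r (x '' A ∪ C) = rK4 A + r C) (g : Fin 6) : x g ∉ C := by
  intro hg
  have h1 := h {g}
  rw [rK4_single] at h1
  simp only [Finset.coe_singleton, image_singleton] at h1
  have : ({x g} : Set α) ∪ C = C := by
    rw [union_eq_right]
    simpa using hg
  rw [this] at h1
  omega

theorem k4_injective {r : Set α → ℕ} {C : Set α} {x : Fin 6 → α}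
    (h : ∀ A : Finset (Fin 6), r (x '' A ∪ C) = rK4 A + r C) : Function.Injective x := by
  intro g g' hgg
  by_contra hne
  have h1 := h {g}
  have h2 := h {g, g'}
  rw [rK4_single] at h1
  rw [rK4_pair g g' hne] at h2
  have : x '' ↑({g, g'} : Finset (Fin 6)) = x '' ↑({g} : Finset (Fin 6)) := by
    ext y
    simp [hgg, eq_comm]
  rw [this] at h2
  omega

/-- If `r` only sees elements of `R`, the elements of the minor lie in `R`. -/
theorem k4_mem {r : Set α → ℕ} {R C : Set α} {x : Fin 6 → α}
    (hr : ∀ X, r X = r (X ∩ R))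
    (h : ∀ A : Finset (Fin 6), r (x '' A ∪ C) = rK4 A + r C) (g : Fin 6) : x g ∈ R := by
  by_contra hg
  have h1 := h {g}
  rw [rK4_single] at h1
  simp only [Finset.coe_singleton, image_singleton] at h1
  rw [hr, hr C] at h1
  have : (({x g} : Set α) ∪ C) ∩ R = C ∩ R := by
    ext y
    simp only [mem_inter_iff, mem_union, mem_singleton_iff]
    constructor
    · rintro ⟨rfl | h1, h2⟩
      · exact absurd h2 hg
      · exact ⟨h1, h2⟩
    · rintro ⟨h1, h2⟩
      exact ⟨Or.inr h1, h2⟩
  rw [this] at h1
  omega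

/-- Restriction (possibly adding loops). -/
theorem HasK4.of_inter {r : Set α → ℕ} (R : Set α) (hk : HasK4 (fun X => r (X ∩ R))) :
    HasK4 r := by
  obtain ⟨C, x, h⟩ := hk
  have hm : ∀ g, x g ∈ R := fun g => k4_mem (r := fun X => r (X ∩ R)) (R := R)
    (fun X => by simp [inter_assoc]) h g
  refine ⟨C ∩ R, x, fun A => ?_⟩
  have h1 := h A
  dsimp only at h1
  rw [union_inter_distrib_right] at h1
  have h2 : x '' A ∩ R = x '' A := by
    rw [inter_eq_left]
    rintro y ⟨g, -, rfl⟩
    exact hm g
  rw [h2] at h1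
  exact h1

theorem HasK4.of_restrict {M : Matroid α} (R : Set α) (hk : HasK4 (rk (M ↾ R))) :
    HasK4 (rk M) := by
  apply HasK4.of_inter R
  have : (fun X => rk M (X ∩ R)) = rk (M ↾ R) := by
    funext X
    rw [rk_restrict]
  rw [this]
  exact hk

theorem HasK4.of_contract' {M : Matroid α} [M.RankFinite] (C : Set α)
    (hk : HasK4 (rk (M ／ C))) : HasK4 (rk M) := by
  apply HasK4.of_contract (isRk_rk M) C
  have : (fun A => rk M (A ∪ C) - rk M C) = rk (M ／ C) := by
    funext X
    have := rk_contract M C X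
    omega
  rw [this]
  exact hk

/-- `M(K_4)` is self-dual: complementary elements. -/
def opp (g : Fin 6) : Fin 6 := 5 - g

theorem HasK4.of_dual {M : Matroid α} [M.Finite] (hk : HasK4 (rk M✶)) : HasK4 (rk M) := by
  obtain ⟨C, x, h⟩ := hk
  have hinj := k4_injective h
  have hE : ∀ g, x g ∈ M.E := fun g => k4_mem (r := rk M✶) (R := M.E)
    (fun X => by
      have := rk_inter_ground M✶ X
      rw [Matroid.dual_ground] at this
      exact this.symm) h g
  have hC : ∀ g, x g ∉ C := k4_notMem h
  -- replace `C` by `C ∩ E`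
  set C₀ := C ∩ M.E with hC₀
  have h' : ∀ A : Finset (Fin 6), rk M✶ (x '' A ∪ C₀) = rK4 A + rk M✶ C₀ := by
    intro A
    have h1 := h A
    rw [← rk_inter_ground, ← rk_inter_ground M✶ C, union_inter_distrib_right,
      Matroid.dual_ground] at h1
    have h2 : x '' A ∩ M.E = x '' A := by
      rw [inter_eq_left]
      rintro y ⟨g, -, rfl⟩
      exact hE g
    rw [h2] at h1
    exact h1
  set D := (M.E \ C₀) \ range x with hD
  have hdisj : ∀ A : Finset (Fin 6), (x '' A ∪ C₀).ncard = A.card + C₀.ncard := by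
    intro A
    have hfin : C₀.Finite := M.ground_finite.subset inter_subset_right
    have hd : Disjoint (x '' A) C₀ := by
      rw [disjoint_left]
      rintro y ⟨g, -, rfl⟩ hy
      exact hC g hy.1
    rw [ncard_union_eq hd ((Finset.finite_toSet A).image x) hfin,
      ncard_image_of_injective _ hinj, ncard_coe_finset]
  have hcompl : ∀ A : Finset (Fin 6), M.E \ (x '' A ∪ C₀) = x '' ↑(Aᶜ) ∪ D := by
    intro A
    ext y
    simp only [mem_sdiff, mem_union, mem_range, hD, not_or]
    constructor
    · rintro ⟨h1, h2, h3⟩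
      by_cases hy : ∃ g, x g = y
      · obtain ⟨g, rfl⟩ := hy
        left
        refine ⟨g, ?_, rfl⟩
        simp only [Finset.coe_compl, mem_compl_iff, Finset.mem_coe]
        intro hg
        exact h2 ⟨g, hg, rfl⟩
      · right
        exact ⟨⟨h1, h3⟩, hy⟩
    · rintro (⟨g, hg, rfl⟩ | ⟨⟨h1, h2⟩, h3⟩)
      · refine ⟨hE g, ?_, fun hg' => hC g hg'.1⟩
        rintro ⟨g', hg', hgg⟩
        have := hinj hgg
        subst this
        simp only [Finset.coe_compl, mem_compl_iff, Finset.mem_coe] at hg
        exact hg hg'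
      · refine ⟨h1, ?_, h2⟩
        rintro ⟨g, -, rfl⟩
        exact h3 ⟨g, rfl⟩
  have hsub : ∀ A : Finset (Fin 6), x '' A ∪ C₀ ⊆ M.E := by
    intro A
    apply union_subset _ inter_subset_right
    rintro y ⟨g, -, rfl⟩
    exact hE g
  have key : ∀ A : Finset (Fin 6), rk M (x '' ↑(Aᶜ) ∪ D) + A.card + C₀.ncard =
      rK4 A + rk M✶ C₀ + rk M M.E := by
    intro A
    have h1 := rk_dual M (x '' A ∪ C₀) (hsub A)
    rw [hcompl, hdisj, h'] at h1
    omega
  have hopp : ∀ A : Finset (Fin 6), rK4 A + Aᶜ.card = 3 + rK4 ((Aᶜ).image opp) := by decide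
  have himg : ∀ A : Finset (Fin 6), (A.image opp).image opp = A := by decide
  refine ⟨D, x ∘ opp, fun A => ?_⟩
  have k0 := key Finset.univ
  have k1 := key ((A.image opp)ᶜ)
  have o1 := hopp ((A.image opp)ᶜ)
  rw [compl_compl, himg] at o1
  rw [compl_compl] at k1
  have e1 : x ∘ opp '' A = x '' ↑(A.image opp) := by
    rw [Finset.coe_image, image_comp]
  rw [e1]
  have e2 : (Finset.univ : Finset (Fin 6))ᶜ = ∅ := by simp
  rw [e2] at k0
  simp only [Finset.coe_empty, image_empty, empty_union, Finset.card_univ, Fintype.card_fin] at k0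
  have e3 : rK4 Finset.univ = 3 := by decide
  have e4 : ((A.image opp)ᶜ).card + (A.image opp).card = 6 := by
    have := Finset.card_add_card_compl (A.image opp)
    simp only [Fintype.card_fin] at this
    omega
  omega

end Pool.Agent.Helper45.K4
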