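import Mathlib
import Pool.Agent.Helper45.K4.Rank

/-!
# Principal extensions of finite matroids
-/

set_option autoImplicit false

open Set Matroid

namespace Pool.Agent.Helper45.K4

variable {α β : Type*}

theorem augment' {M : Matroid α} [M.Finite] {I J : Set α} (hI : M.Indep I) (hJ : M.Indep J)
    (h : I.ncard < J.ncard) : ∃ x ∈ J, x ∉ I ∧ M.Indep (insert x I) := by
  have h' : I.encard < J.encard := by
    rw [← (M.ground_finite.subset hI.subset_ground).cast_ncard_eq,
      ← (M.ground_finite.subset hJ.subset_ground).cast_ncard_eq]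
    exact_mod_cast h
  obtain ⟨x, hx, hxi⟩ := hI.augment hJ h'
  exact ⟨x, hx.1, hx.2, hxi⟩

/-- Principal extension exists. -/
theorem exists_princExt (M : Matroid α) [M.Finite] (p : α) (hp : p ∉ M.E) (F : Set α)
    (hF : F ⊆ M.E) :
    ∃ P : Matroid α, P.Finite ∧ P.E = insert p M.E ∧ ∀ I, P.Indep I ↔ M.Indep (I \ {p}) ∧
      (p ∈ I → ∃ v ∈ F, v ∉ I ∧ M.Indep (insert v (I \ {p}))) := by
  classical
  have hpF : ∀ v ∈ F, v ≠ p := fun v hv h => hp (h ▸ hF hv)
  let Ind : Set α → Prop := fun I => M.Indep (I \ {p}) ∧
      (p ∈ I → ∃ v ∈ F, v ∉ I ∧ M.Indep (insert v (I \ {p})))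
  have hfinI : ∀ I, Ind I → I.Finite := by
    intro I hI
    have h1 : (I \ {p}).Finite := M.ground_finite.subset hI.1.subset_ground
    exact (h1.insert p).subset (fun x hx => by
      by_cases hxp : x = p
      · exact Or.inl hxp
      · exact Or.inr ⟨hx, hxp⟩)
  -- easy augmentation when `p ∉ I`
  have easy : ∀ (I : Set α) (x : α), p ∉ I → x ≠ p → M.Indep (insert x I) → Ind (insert x I) := by
    intro I x hpI hxp h
    have hnot : p ∉ insert x I := by
      rintro (h | h)
      · exact hxp h.symm
      · exact hpI h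
    refine ⟨?_, fun h => absurd h hnot⟩
    rwa [sdiff_singleton_eq_self hnot]
  have hard : ∀ (I : Set α) (x y : α), p ∈ I → x ≠ p → x ∉ I → y ∈ F → y ≠ x → y ∉ I →
      M.Indep (insert y (insert x (I \ {p}))) → Ind (insert x I) := by
    intro I x y hpI hxp hxI hyF hyx hyI h
    have e1 : insert x I \ {p} = insert x (I \ {p}) := by
      ext z
      simp only [mem_sdiff, mem_insert_iff, mem_singleton_iff]
      constructor
      · rintro ⟨h1 | h1, h2⟩
        · exact Or.inl h1
        · exact Or.inr ⟨h1, h2⟩
      · rintro (h1 | ⟨h1, h2⟩)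
        · exact ⟨Or.inl h1, h1 ▸ hxp⟩
        · exact ⟨Or.inr h1, h2⟩
    refine ⟨?_, fun _ => ⟨y, hyF, ?_, ?_⟩⟩
    · rw [e1]
      exact h.subset (subset_insert _ _)
    · rintro (h | h)
      · exact hyx h
      · exact hyI h
    · rw [e1]
      exact h
  refine ⟨(IndepMatroid.ofFinite (E := insert p M.E) (M.ground_finite.insert p) Ind
    ?_ ?_ ?_ ?_).matroid, ?_, rfl, fun I => Iff.rfl⟩
  · refine ⟨by simp, fun h => absurd h (notMem_empty p)⟩
  · rintro I J ⟨hJ1, hJ2⟩ hIJ
    refine ⟨hJ1.subset (sdiff_subset_sdiff_left hIJ), fun hpI => ?_⟩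
    obtain ⟨v, hvF, hvJ, hv⟩ := hJ2 (hIJ hpI)
    exact ⟨v, hvF, fun h => hvJ (hIJ h), hv.subset (insert_subset_insert
      (sdiff_subset_sdiff_left hIJ))⟩
  · intro I J hI hJ hcard
    have hIf := hfinI I hI
    have hJf := hfinI J hJ
    have hI1 := hI.1
    have hJ1 := hJ.1
    by_cases hpI : p ∈ I
    · obtain ⟨y, hyF, hyI, hy⟩ := hI.2 hpI
      have hcI : (I \ {p}).ncard + 1 = I.ncard := ncard_sdiff_singleton_add_one hpI hIf
      have hyI' : y ∉ I \ {p} := fun h => hyI h.1
      have hcK : (insert y (I \ {p})).ncard = I.ncard := by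
        rw [ncard_insert_of_notMem hyI' hIf.sdiff, hcI]
      -- a general way to conclude
      have concl : ∀ x, x ∈ J → x ∉ insert y (I \ {p}) → x ≠ p →
          M.Indep (insert x (insert y (I \ {p}))) → ∃ e ∈ J, e ∉ I ∧ Ind (insert e I) := by
        intro x hxJ hxK hxp hx
        have hxI : x ∉ I := fun h => hxK (Or.inr ⟨h, hxp⟩)
        refine ⟨x, hxJ, hxI, hard I x y hpI hxp hxI hyF (fun h => hxK (Or.inl h.symm)) hyI ?_⟩
        rwa [insert_comm]
      by_cases hpJ : p ∈ J
      · obtain ⟨y', hyF', hyJ', hy'⟩ := hJ.2 hpJ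
        have hcJ : (J \ {p}).ncard + 1 = J.ncard := ncard_sdiff_singleton_add_one hpJ hJf
        have hyJ'' : y' ∉ J \ {p} := fun h => hyJ' h.1
        have hcK' : (insert y' (J \ {p})).ncard = J.ncard := by
          rw [ncard_insert_of_notMem hyJ'' hJf.sdiff, hcJ]
        obtain ⟨x, hxK', hxK, hx⟩ := augment' hy hy' (by omega)
        rcases hxK' with rfl | hxJ
        · -- now `x = y'`
          obtain ⟨z, hzJ, hzI, hz⟩ := augment' hI1 hJ1 (by omega)
          have hzp : z ≠ p := hzJ.2
          have hzI' : z ∉ I := fun h => hzI ⟨h, hzp⟩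
          have hcz : (insert z (I \ {p})).ncard = (I \ {p}).ncard + 1 :=
            ncard_insert_of_notMem hzI hIf.sdiff
          have hcx : (insert x (insert y (I \ {p}))).ncard = (I \ {p}).ncard + 2 := by
            rw [ncard_insert_of_notMem hxK (hIf.sdiff.insert _),
              ncard_insert_of_notMem hyI' hIf.sdiff]
          obtain ⟨v, hv1, hv2, hv3⟩ := augment' hz hx (by omega)
          have hvI : v ∉ I \ {p} := fun h => hv2 (Or.inr h)
          have hvF : v ∈ F := by
            rcases hv1 with rfl | rfl | h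
            · exact hyF'
            · exact hyF
            · exact absurd h hvI
          refine ⟨z, hzJ.1, hzI', hard I z v hpI hzp hzI' hvF (fun h => hv2 (Or.inl h)) ?_ hv3⟩
          intro h
          exact hvI ⟨h, hpF v hvF⟩
        · exact concl x hxJ.1 hxK hxJ.2 hx
      · have hJp : J \ {p} = J := sdiff_singleton_eq_self hpJ
        rw [hJp] at hJ1
        obtain ⟨x, hxJ, hxK, hx⟩ := augment' hy hJ1 (by omega)
        exact concl x hxJ hxK (fun h => hpJ (h ▸ hxJ)) hx
    · have hIp : I \ {p} = I := sdiff_singleton_eq_self hpI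
      rw [hIp] at hI1
      by_cases hlt : I.ncard < (J \ {p}).ncard
      · obtain ⟨x, hxJ, hxI, hx⟩ := augment' hI1 hJ1 hlt
        exact ⟨x, hxJ.1, hxI, easy I x hpI hxJ.2 hx⟩
      · have hpJ : p ∈ J := by
          by_contra hpJ
          rw [sdiff_singleton_eq_self hpJ] at hlt
          exact hlt hcard
        obtain ⟨y', hyF', hyJ', hy'⟩ := hJ.2 hpJ
        have hcJ : (J \ {p}).ncard + 1 = J.ncard := ncard_sdiff_singleton_add_one hpJ hJf
        have hyJ'' : y' ∉ J \ {p} := fun h => hyJ' h.1
        have hcK' : (insert y' (J \ {p})).ncard = J.ncard := by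
          rw [ncard_insert_of_notMem hyJ'' hJf.sdiff, hcJ]
        obtain ⟨x, hxK', hxI, hx⟩ := augment' hI1 hy' (by omega)
        rcases hxK' with rfl | hxJ
        · refine ⟨p, hpJ, hpI, ?_, fun _ => ⟨x, hyF', ?_, ?_⟩⟩
          · rwa [insert_sdiff_self_of_notMem hpI]
          · rintro (h | h)
            · exact hpF x hyF' h
            · exact hxI h
          · rwa [insert_sdiff_self_of_notMem hpI]
        · exact ⟨x, hxJ.1, hxI, easy I x hpI hxJ.2 hx⟩
  · rintro I hI x hx
    by_cases hxp : x = p
    · exact Or.inl hxp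
    · exact Or.inr (hI.1.subset_ground ⟨hx, hxp⟩)
  · exact ⟨M.ground_finite.insert p⟩

/-- The rank function of a principal extension. -/
theorem rk_princExt (M P : Matroid α) [M.Finite] [P.Finite] (p : α) (hp : p ∉ M.E) (F : Set α)
    (hF : F ⊆ M.E) (hPE : P.E = insert p M.E)
    (hP : ∀ I, P.Indep I ↔ M.Indep (I \ {p}) ∧
      (p ∈ I → ∃ v ∈ F, v ∉ I ∧ M.Indep (insert v (I \ {p})))) :
    rk P = princ (rk M) F p := by
  classical
  have hr : P ↾ M.E = M := by
    refine Matroid.ext_indep (M₁ := P ↾ M.E) (M₂ := M) (restrict_ground_eq ..) ?_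
    intro I hI
    rw [restrict_ground_eq] at hI
    have hpI : p ∉ I := fun h => hp (hI h)
    rw [restrict_indep_iff, hP, sdiff_singleton_eq_self hpI]
    constructor
    · exact fun h => h.1.1
    · exact fun h => ⟨⟨h, fun h' => absurd h' hpI⟩, hI⟩
  have h0 : ∀ X, p ∉ X → rk P X = rk M X := by
    intro X hX
    rw [← rk_inter_ground, hPE]
    have e1 : X ∩ insert p M.E = X ∩ M.E := by
      ext y
      simp only [mem_inter_iff, mem_insert_iff]
      constructor
      · rintro ⟨h1, h2 | h2⟩
        · exact absurd (h2 ▸ h1) hX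
        · exact ⟨h1, h2⟩
      · rintro ⟨h1, h2⟩
        exact ⟨h1, Or.inr h2⟩
    rw [e1, ← rk_restrict, hr]
  funext X
  unfold princ
  by_cases hpX : p ∈ X
  · rw [if_pos hpX]
    set X₀ := X \ {p} with hX₀
    have hXe : X = insert p X₀ := by
      rw [hX₀, insert_sdiff_singleton, insert_eq_of_mem hpX]
    have hpX₀ : p ∉ X₀ := fun h => h.2 rfl
    obtain ⟨I, hI⟩ := M.exists_isBasis' X₀
    have hpI : p ∉ I := fun h => hpX₀ (hI.subset h)
    have hIfin : I.Finite := M.ground_finite.subset hI.indep.subset_ground
    have hrI : rk M X₀ = I.ncard := by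
      have := hI.encard_eq_eRk
      unfold rk
      rw [← this]
      rfl
    have hcl : rk P (insert p X₀) = rk P (insert p I) := by
      have hM := isRk_rk M
      have hPr := isRk_rk P
      apply le_antisymm _ (hPr.mono (insert_subset_insert hI.subset))
      have s := hPr.submod (insert p I) X₀
      have e1 : insert p I ∪ X₀ = insert p X₀ := by
        rw [insert_union, union_eq_self_of_subset_left hI.subset]
      have e2 : insert p I ∩ X₀ = I := by
        ext y
        simp only [mem_inter_iff, mem_insert_iff]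
        constructor
        · rintro ⟨h1 | h1, h2⟩
          · exact absurd (h1 ▸ h2) hpX₀
          · exact h1
        · exact fun h => ⟨Or.inr h, hI.subset h⟩
      rw [e1, e2, h0 X₀ hpX₀, h0 I hpI] at s
      have h2 : rk M I = rk M X₀ := by
        unfold rk
        rw [hI.eRk_eq_eRk]
      omega
    have hPr := isRk_rk P
    have hMr := isRk_rk M
    have hle1 : rk P (insert p I) ≤ I.ncard + 1 := by
      have s := hPr.submod {p} I
      have u := hPr.unit p
      rw [singleton_union, h0 I hpI] at s
      have h2 : rk M I = I.ncard := by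
        unfold rk
        rw [hI.indep.eRk_eq_encard]
        rfl
      omega
    have hge1 : I.ncard ≤ rk P (insert p I) := by
      have h1 : rk P I ≤ rk P (insert p I) := hPr.mono (subset_insert _ _)
      rw [h0 I hpI] at h1
      have h2 : rk M I = I.ncard := by
        unfold rk
        rw [hI.indep.eRk_eq_encard]
        rfl
      omega
    rw [hXe, hcl, hrI]
    by_cases hex : ∃ v ∈ F, v ∉ I ∧ M.Indep (insert v I)
    · obtain ⟨v, hvF, hvI, hv⟩ := hex
      have hPi : P.Indep (insert p I) := by
        rw [hP, insert_sdiff_self_of_notMem hpI]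
        refine ⟨hI.indep, fun _ => ⟨v, hvF, ?_, hv⟩⟩
        rintro (h | h)
        · exact hp (h ▸ hF hvF)
        · exact hvI h
      have e1 : rk P (insert p I) = I.ncard + 1 := by
        unfold rk
        rw [hPi.eRk_eq_encard, encard_insert_of_notMem hpI, ← hIfin.cast_ncard_eq]
        rfl
      have e2 : I.ncard + 1 ≤ rk M (X₀ ∪ F) := by
        have h1 : rk M (insert v I) ≤ rk M (X₀ ∪ F) := by
          apply hMr.mono
          rintro y (rfl | hy)
          · exact Or.inr hvF
          · exact Or.inl (hI.subset hy)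
        have h2 : rk M (insert v I) = I.ncard + 1 := by
          unfold rk
          rw [hv.eRk_eq_encard, encard_insert_of_notMem hvI, ← hIfin.cast_ncard_eq]
          rfl
        omega
      omega
    · push Not at hex
      have hnot : ¬ P.Indep (insert p I) := by
        intro h
        rw [hP, insert_sdiff_self_of_notMem hpI] at h
        obtain ⟨v, hvF, hvI, hv⟩ := h.2 (mem_insert _ _)
        exact hex v hvF (fun h => hvI (Or.inr h)) hv
      have e1 : rk P (insert p I) ≠ I.ncard + 1 := by
        intro h
        apply hnot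
        rw [indep_iff_eRk_eq_encard, ← coe_rk, h, encard_insert_of_notMem hpI,
          ← hIfin.cast_ncard_eq]
        rfl
      have e2 : rk M (X₀ ∪ F) ≤ rk M X₀ := by
        apply hMr.loc
        intro b hb
        by_cases hbI : b ∈ I
        · rw [union_singleton, insert_eq_of_mem (hI.subset hbI)]
        · have hdep : ¬ M.Indep (insert b I) := hex b hb hbI
          have hcl2 : rk M (X₀ ∪ {b}) ≤ rk M (insert b I) := by
            have s := hMr.submod (insert b I) X₀
            have h3 : rk M (X₀ ∪ {b}) ≤ rk M (insert b I ∪ X₀) := by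
              apply hMr.mono
              intro y hy
              simp only [mem_union, mem_insert_iff, mem_singleton_iff] at hy ⊢
              tauto
            have h4 : rk M I ≤ rk M (insert b I ∩ X₀) :=
              hMr.mono (subset_inter (subset_insert _ _) hI.subset)
            have h2 : rk M I = rk M X₀ := by
              unfold rk
              rw [hI.eRk_eq_eRk]
            omega
          have h5 : rk M (insert b I) ≤ I.ncard + 1 := by
            have s := hMr.submod {b} I
            have u := hMr.unit b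
            rw [singleton_union] at s
            have h2 : rk M I = rk M X₀ := by
              unfold rk
              rw [hI.eRk_eq_eRk]
            omega
          have h6 : rk M (insert b I) ≠ I.ncard + 1 := by
            intro h
            apply hdep
            rw [indep_iff_eRk_eq_encard, ← coe_rk, h, encard_insert_of_notMem hbI,
              ← hIfin.cast_ncard_eq]
            rfl
          omega
      have e3 : rk M X₀ ≤ rk M (X₀ ∪ F) := hMr.mono subset_union_left
      omega
  · rw [if_neg hpX]
    exact h0 X hpX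

end Pool.Agent.Helper45.K4
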