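import Mathlib
import Pool.Agent.Helper45.K4.PrincExt
import Pool.Agent.Helper45.K4.Defs

/-!
# Induction by bipartite and by directed graphs
-/

set_option autoImplicit false

open Set Matroid

namespace Pool.Agent.Helper45.K4

section Transfer

variable {α β : Type*}

theorem HasK4.of_preimage {r : Set α → ℕ} (f : α → β)
    (hk : HasK4 (fun X : Set β => r (f ⁻¹' X))) (hf : Function.Injective f) : HasK4 r := by
  obtain ⟨C, x, h⟩ := hk
  have hm : ∀ g, x g ∈ range f := fun g => k4_mem (r := fun X : Set β => r (f ⁻¹' X))
    (R := range f) (fun X => by simp) h g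
  choose y hy using hm
  refine ⟨f ⁻¹' C, y, fun A => ?_⟩
  have h1 := h A
  dsimp only at h1
  have h2 : f ⁻¹' (x '' A ∪ C) = y '' A ∪ f ⁻¹' C := by
    rw [preimage_union]
    congr 1
    ext z
    simp only [mem_preimage, mem_image]
    constructor
    · rintro ⟨g, hg, hgz⟩
      exact ⟨g, hg, hf ((hy g).trans hgz)⟩
    · rintro ⟨g, hg, rfl⟩
      exact ⟨g, hg, (hy g).symm⟩
  rw [h2] at h1
  exact h1

theorem HasK4.of_image {r : Set β → ℕ} (f : α → β)
    (hk : HasK4 (fun X : Set α => r (f '' X))) : HasK4 r := by
  obtain ⟨C, x, h⟩ := hk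
  refine ⟨f '' C, f ∘ x, fun A => ?_⟩
  have h1 := h A
  dsimp only at h1
  rw [image_union, ← image_comp] at h1
  exact h1

theorem rk_mapEmbedding (M : Matroid α) (f : α ↪ β) (X : Set β) :
    rk (M.mapEmbedding f) X = rk M (f ⁻¹' X) := by
  rw [← rk_inter_ground, ← rk_inter_ground M]
  have h1 : X ∩ (M.mapEmbedding f).E = f '' (f ⁻¹' X ∩ M.E) := by
    rw [mapEmbedding_ground_eq]
    ext y
    simp only [mem_inter_iff, mem_image, mem_preimage]
    constructor
    · rintro ⟨h1, z, hz, rfl⟩
      exact ⟨z, ⟨h1, hz⟩, rfl⟩
    · rintro ⟨z, ⟨h1, h2⟩, rfl⟩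
      exact ⟨h1, z, h2, rfl⟩
  rw [h1]
  unfold rk mapEmbedding
  rw [eRk_map _ _ inter_subset_right]

end Transfer

section Bip

variable {α : Type}

/-- Bipartite induction, one new element at a time. -/
theorem bip_chain (P : Matroid α) [P.Finite] (N : α → Set α) (hN : ∀ w, N w ⊆ P.E)
    (W : Finset α) :
    ∃ Q : Matroid (α ⊕ α), Q.Finite ∧ Q.E = Sum.inl '' P.E ∪ Sum.inr '' (W : Set α) ∧
      (∀ I, Q.Indep I ↔ I ⊆ Sum.inl '' P.E ∪ Sum.inr '' (W : Set α) ∧
        ∃ g : α → α, InjOn g (Sum.inr ⁻¹' I) ∧
          (∀ w ∈ Sum.inr ⁻¹' I, g w ∈ N w ∧ Sum.inl (g w) ∉ I) ∧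
          P.Indep (Sum.inl ⁻¹' I ∪ g '' (Sum.inr ⁻¹' I))) ∧
      (HasK4 (rk Q) → HasK4 (rk P)) := by
  classical
  induction W using Finset.induction_on with
  | empty =>
    refine ⟨P.mapEmbedding ⟨Sum.inl, Sum.inl_injective⟩, ?_, ?_, ?_, ?_⟩
    · constructor
      rw [mapEmbedding_ground_eq]
      exact P.ground_finite.image _
    · rw [mapEmbedding_ground_eq]
      simp
    · intro I
      rw [mapEmbedding_indep_iff]
      simp only [Finset.coe_empty, image_empty, union_empty, Function.Embedding.coeFn_mk]
      constructor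
      · rintro ⟨h1, h2⟩
        have hI : I ⊆ Sum.inl '' P.E := by
          intro y hy
          obtain ⟨z, rfl⟩ := h2 hy
          exact ⟨z, h1.subset_ground hy, rfl⟩
        have he : (Sum.inr ⁻¹' I : Set α) = ∅ := by
          ext z
          simp only [mem_preimage, mem_empty_iff_false, iff_false]
          intro hz
          obtain ⟨y, -, hy⟩ := hI hz
          cases hy
        refine ⟨hI, id, ?_, ?_, ?_⟩
        · rw [he]
          exact injOn_empty _
        · rw [he]
          intro w hw
          exact absurd hw (notMem_empty w)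
        · rw [he, image_empty, union_empty]
          exact h1
      · rintro ⟨h1, g, -, -, h2⟩
        refine ⟨h2.subset subset_union_left, ?_⟩
        intro y hy
        obtain ⟨z, -, rfl⟩ := h1 hy
        exact ⟨z, rfl⟩
    · intro h
      apply HasK4.of_preimage (Sum.inl : α → α ⊕ α) _ Sum.inl_injective
      have : (fun X : Set (α ⊕ α) => rk P (Sum.inl ⁻¹' X)) =
          rk (P.mapEmbedding ⟨Sum.inl, Sum.inl_injective⟩) := by
        funext X
        rw [rk_mapEmbedding]
        rfl
      rw [this]
      exact h
  | insert w W hw ih =>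
    obtain ⟨Q, hQf, hQE, hQ, hQk⟩ := ih
    have hp : (Sum.inr w : α ⊕ α) ∉ Q.E := by
      rw [hQE]
      rintro (⟨z, -, hz⟩ | ⟨z, hz, hzw⟩)
      · cases hz
      · cases hzw
        exact hw hz
    have hF : (Sum.inl '' (N w) : Set (α ⊕ α)) ⊆ Q.E := by
      rw [hQE]
      exact (image_mono (hN w)).trans subset_union_left
    obtain ⟨Q', hQ'f, hQ'E, hQ'⟩ := exists_princExt Q (Sum.inr w) hp _ hF
    have hE' : Q'.E = Sum.inl '' P.E ∪ Sum.inr '' ((insert w W : Finset α) : Set α) := by
      rw [hQ'E, hQE, Finset.coe_insert, image_insert_eq, union_insert]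
    refine ⟨Q', hQ'f, hE', ?_, ?_⟩
    · intro I
      constructor
      · intro hI
        have hIE : I ⊆ Sum.inl '' P.E ∪ Sum.inr '' ((insert w W : Finset α) : Set α) := by
          rw [← hE']
          exact hI.subset_ground
        refine ⟨hIE, ?_⟩
        rw [hQ'] at hI
        by_cases hwI : (Sum.inr w : α ⊕ α) ∈ I
        · obtain ⟨v', ⟨v, hvN, rfl⟩, hvI, hv⟩ := hI.2 hwI
          rw [hQ] at hv
          obtain ⟨-, g, hg1, hg2, hg3⟩ := hv
          have hpre : (Sum.inr ⁻¹' (insert (Sum.inl v) (I \ {Sum.inr w})) : Set α) =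
              (Sum.inr ⁻¹' I) \ {w} := by
            ext z
            simp only [mem_preimage, mem_insert_iff, mem_sdiff, mem_singleton_iff, reduceCtorEq,
              false_or, Sum.inr.injEq]
          have hpre2 : (Sum.inl ⁻¹' (insert (Sum.inl v) (I \ {Sum.inr w})) : Set α) =
              insert v (Sum.inl ⁻¹' I) := by
            ext z
            simp only [mem_preimage, mem_insert_iff, mem_sdiff, mem_singleton_iff, reduceCtorEq,
              not_false_eq_true, and_true, Sum.inl.injEq]
          rw [hpre] at hg1 hg2 hg3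
          rw [hpre2] at hg3
          have hne : ∀ w' ∈ (Sum.inr ⁻¹' I : Set α) \ {w}, g w' ≠ v := by
            intro w' hw' heq
            exact (hg2 w' hw').2 (by rw [heq]; exact mem_insert _ _)
          have hupd : ∀ w' ∈ (Sum.inr ⁻¹' I : Set α) \ {w}, Function.update g w v w' = g w' := by
            intro w' hw'
            exact Function.update_of_ne hw'.2 _ _
          have hins : (Sum.inr ⁻¹' I : Set α) = insert w ((Sum.inr ⁻¹' I : Set α) \ {w}) := by
            rw [insert_sdiff_singleton, insert_eq_of_mem (by exact hwI)]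
          refine ⟨Function.update g w v, ?_, ?_, ?_⟩
          · intro a ha b hb hab
            by_cases haw : a = w
            · by_cases hbw : b = w
              · rw [haw, hbw]
              · have hb' : b ∈ (Sum.inr ⁻¹' I : Set α) \ {w} := ⟨hb, hbw⟩
                rw [haw, Function.update_self, hupd b hb'] at hab
                exact absurd hab.symm (hne b hb')
            · have ha' : a ∈ (Sum.inr ⁻¹' I : Set α) \ {w} := ⟨ha, haw⟩
              by_cases hbw : b = w
              · rw [hbw, Function.update_self, hupd a ha'] at hab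
                exact absurd hab (hne a ha')
              · have hb' : b ∈ (Sum.inr ⁻¹' I : Set α) \ {w} := ⟨hb, hbw⟩
                rw [hupd a ha', hupd b hb'] at hab
                exact hg1 ha' hb' hab
          · intro a ha
            by_cases haw : a = w
            · rw [haw, Function.update_self]
              exact ⟨hvN, hvI⟩
            · have ha' : a ∈ (Sum.inr ⁻¹' I : Set α) \ {w} := ⟨ha, haw⟩
              rw [hupd a ha']
              refine ⟨(hg2 a ha').1, fun h => (hg2 a ha').2 (Or.inr ⟨h, ?_⟩)⟩
              simp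
          · have himg : Function.update g w v '' (Sum.inr ⁻¹' I) =
                insert v (g '' ((Sum.inr ⁻¹' I) \ {w})) := by
              conv_lhs => rw [hins]
              rw [image_insert_eq, Function.update_self]
              congr 1
              exact image_congr hupd
            rw [himg]
            convert hg3 using 1
            rw [union_insert, insert_union]
        · have hI1 := hI.1
          rw [sdiff_singleton_eq_self hwI, hQ] at hI1
          exact hI1.2
      · rintro ⟨hIE, g, hg1, hg2, hg3⟩
        rw [hQ']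
        have hsub : ∀ I' : Set (α ⊕ α), I' ⊆ Sum.inl '' P.E ∪
            Sum.inr '' ((insert w W : Finset α) : Set α) → Sum.inr w ∉ I' →
            I' ⊆ Sum.inl '' P.E ∪ Sum.inr '' (W : Set α) := by
          intro I' h1 h2 y hy
          rcases h1 hy with h | ⟨z, hz, rfl⟩
          · exact Or.inl h
          · rw [Finset.coe_insert] at hz
            rcases hz with rfl | hz
            · exact absurd hy h2
            · exact Or.inr ⟨z, hz, rfl⟩
        by_cases hwI : (Sum.inr w : α ⊕ α) ∈ I
        · have hgw := hg2 w hwI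
          have hpre : (Sum.inr ⁻¹' (insert (Sum.inl (g w)) (I \ {Sum.inr w})) : Set α) =
              (Sum.inr ⁻¹' I) \ {w} := by
            ext z
            simp only [mem_preimage, mem_insert_iff, mem_sdiff, mem_singleton_iff, reduceCtorEq,
              false_or, Sum.inr.injEq]
          have hpre2 : (Sum.inl ⁻¹' (insert (Sum.inl (g w)) (I \ {Sum.inr w})) : Set α) =
              insert (g w) (Sum.inl ⁻¹' I) := by
            ext z
            simp only [mem_preimage, mem_insert_iff, mem_sdiff, mem_singleton_iff, reduceCtorEq,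
              not_false_eq_true, and_true, Sum.inl.injEq]
          have hins : (Sum.inr ⁻¹' I : Set α) = insert w ((Sum.inr ⁻¹' I : Set α) \ {w}) := by
            rw [insert_sdiff_singleton, insert_eq_of_mem (by exact hwI)]
          have hbig : Q.Indep (insert (Sum.inl (g w)) (I \ {Sum.inr w})) := by
            rw [hQ]
            refine ⟨?_, g, ?_, ?_, ?_⟩
            · apply hsub
              · apply insert_subset
                · exact Or.inl ⟨g w, hN w hgw.1, rfl⟩
                · exact sdiff_subset.trans hIE
              · simp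
            · rw [hpre]
              exact hg1.mono sdiff_subset
            · rw [hpre]
              intro a ha
              refine ⟨(hg2 a ha.1).1, ?_⟩
              rintro (h | h)
              · have : a = w := hg1 ha.1 hwI (Sum.inl_injective h)
                exact ha.2 this
              · exact (hg2 a ha.1).2 h.1
            · rw [hpre, hpre2]
              convert hg3 using 1
              conv_rhs => rw [hins]
              rw [image_insert_eq, union_insert, insert_union]
          refine ⟨hbig.subset (subset_insert _ _), fun _ => ⟨Sum.inl (g w), ⟨g w, hgw.1, rfl⟩,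
            hgw.2, hbig⟩⟩
        · refine ⟨?_, fun h => absurd h hwI⟩
          rw [sdiff_singleton_eq_self hwI, hQ]
          exact ⟨hsub I hIE hwI, g, hg1, hg2, hg3⟩
    · intro h
      apply hQk
      rw [rk_princExt Q Q' (Sum.inr w) hp _ hF hQ'E hQ'] at h
      exact HasK4.of_princ (isRk_rk Q) _ _ h

/-- Bipartite induction. -/
theorem bip (P : Matroid α) [P.Finite] (N : α → Set α) (hN : ∀ w, N w ⊆ P.E) :
    ∃ R : Matroid α, R.Finite ∧ R.E = P.E ∧
      (∀ J, R.Indep J ↔ J ⊆ P.E ∧
        ∃ g : α → α, InjOn g J ∧ (∀ w ∈ J, g w ∈ N w) ∧ P.Indep (g '' J)) ∧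
      (HasK4 (rk R) → HasK4 (rk P)) := by
  classical
  obtain ⟨Q, hQf, hQE, hQ, hQk⟩ := bip_chain P N hN P.ground_finite.toFinset
  rw [Finite.coe_toFinset] at hQE hQ
  have hE : (Q.comap Sum.inr).E = P.E := by
    rw [comap_ground_eq, hQE]
    ext z
    simp
  refine ⟨Q.comap Sum.inr, ⟨by rw [hE]; exact P.ground_finite⟩, hE, ?_, ?_⟩
  · intro J
    rw [comap_indep_iff, and_iff_left Sum.inr_injective.injOn, hQ]
    have h1 : ((Sum.inr : α → α ⊕ α) ⁻¹' (Sum.inr '' J) : Set α) = J :=
      preimage_image_eq _ Sum.inr_injective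
    have h2 : ((Sum.inl : α → α ⊕ α) ⁻¹' (Sum.inr '' J) : Set α) = ∅ := by
      ext z
      simp
    rw [h1, h2]
    have h3 : ((Sum.inr : α → α ⊕ α) '' J) ⊆ Sum.inl '' P.E ∪ Sum.inr '' P.E ↔ J ⊆ P.E := by
      constructor
      · intro h z hz
        rcases h ⟨z, hz, rfl⟩ with ⟨y, -, hy⟩ | ⟨y, hy, hyz⟩
        · cases hy
        · cases hyz
          exact hy
      · intro h
        exact (image_mono h).trans subset_union_right
    rw [h3]
    simp only [empty_union, mem_image, reduceCtorEq, and_false, exists_false, not_false_eq_true,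
      and_true]
  · intro h
    apply hQk
    apply HasK4.of_image (Sum.inr : α → α ⊕ α)
    have : (fun X : Set α => rk Q (Sum.inr '' X)) = rk (Q.comap Sum.inr) := by
      funext X
      unfold rk
      rw [eRk_comap]
    rw [this]
    exact h

end Bip

end Pool.Agent.Helper45.K4
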