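import Mathlib
import Pool.Agent.Helper45.K4.Induction

/-!
# Induction by directed graphs does not create `M(K_4)`-minors
-/

set_option autoImplicit false

open Set Matroid

namespace Pool.Agent.Helper45.K4

variable {α : Type}

theorem isBase_of_indep_ncard {M : Matroid α} [M.Finite] {I B : Set α} (hI : M.Indep I)
    (hB : M.IsBase B) (h : B.ncard ≤ I.ncard) : M.IsBase I := by
  obtain ⟨B', hB', hIB'⟩ := hI.exists_isBase_superset
  have h1 : B'.ncard = B.ncard := hB'.ncard_eq_ncard_of_isBase hB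
  have hfin : B'.Finite := M.ground_finite.subset hB'.subset_ground
  have : I = B' := eq_of_subset_of_ncard_le hIB' (by omega) hfin
  rw [this]
  exact hB'

/-- Bases of the bipartite induction when every vertex is adjacent to its copy. -/
theorem bip_isBase_iff (P R : Matroid α) [P.Finite] [R.Finite] (N : α → Set α)
    (hself : ∀ w ∈ P.E, w ∈ N w) (hRE : R.E = P.E)
    (hR : ∀ J, R.Indep J ↔ J ⊆ P.E ∧
        ∃ g : α → α, InjOn g J ∧ (∀ w ∈ J, g w ∈ N w) ∧ P.Indep (g '' J)) (B : Set α) :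
    R.IsBase B ↔ B ⊆ P.E ∧ ∃ g : α → α, InjOn g B ∧ (∀ w ∈ B, g w ∈ N w) ∧
      P.IsBase (g '' B) := by
  obtain ⟨D, hD⟩ := P.exists_isBase
  have hDi : R.Indep D := by
    rw [hR]
    refine ⟨hD.subset_ground, id, injOn_id _, fun w hw => hself w (hD.subset_ground hw), ?_⟩
    rw [image_id]
    exact hD.indep
  obtain ⟨B₀, hB₀, hDB₀⟩ := hDi.exists_isBase_superset
  have hfin : ∀ J : Set α, R.Indep J → J.Finite := fun J hJ =>
    R.ground_finite.subset hJ.subset_ground
  have hle : ∀ J : Set α, R.Indep J → J.ncard ≤ D.ncard := by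
    intro J hJ
    rw [hR] at hJ
    obtain ⟨-, g, hg1, -, hg3⟩ := hJ
    obtain ⟨D', hD', hJD'⟩ := hg3.exists_isBase_superset
    rw [← hg1.ncard_image, ← hD'.ncard_eq_ncard_of_isBase hD]
    exact ncard_le_ncard hJD' (P.ground_finite.subset hD'.subset_ground)
  have hcard : B₀.ncard = D.ncard := by
    apply le_antisymm (hle _ hB₀.indep)
    exact ncard_le_ncard hDB₀ (hfin _ hB₀.indep)
  constructor
  · intro hB
    have hBi := hB.indep
    rw [hR] at hBi
    obtain ⟨h0, g, hg1, hg2, hg3⟩ := hBi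
    refine ⟨h0, g, hg1, hg2, ?_⟩
    apply isBase_of_indep_ncard hg3 hD
    rw [hg1.ncard_image, hB.ncard_eq_ncard_of_isBase hB₀, hcard]
  · rintro ⟨h0, g, hg1, hg2, hg3⟩
    apply isBase_of_indep_ncard ((hR B).2 ⟨h0, g, hg1, hg2, hg3.indep⟩) hB₀
    rw [hcard, ← hg1.ncard_image, hg3.ncard_eq_ncard_of_isBase hD]

/-- From a matching to a linking. -/
theorem linking_of_matching {T Y B I : Set α} {Γ : α → α → Prop} {g : α → α}
    (hT : T.Finite) (hY : Y ⊆ T) (hBT : B ⊆ T) (hg1 : InjOn g B)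
    (hg2 : ∀ w ∈ B, g w = w ∨ Γ (g w) w) (hg3 : g '' B = T \ Y) (hIT : I ⊆ T)
    (hIB : Disjoint I B) : ∃ J ⊆ Y, JoinedOnto T Γ I J := by
  classical
  have hfex : ∃ f : α → α, ∀ v ∈ T \ Y, f v ∈ B ∧ g (f v) = v := by
    have h : ∀ v, ∃ w, v ∈ T \ Y → w ∈ B ∧ g w = v := by
      intro v
      by_cases hv : v ∈ T \ Y
      · rw [← hg3] at hv
        obtain ⟨w, hw, hwv⟩ := hv
        exact ⟨w, fun _ => ⟨hw, hwv⟩⟩
      · exact ⟨v, fun h => absurd h hv⟩
    choose f hf using h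
    exact ⟨f, hf⟩
  obtain ⟨f, hf⟩ := hfex
  have hfinj : ∀ v ∈ T \ Y, ∀ v' ∈ T \ Y, f v = f v' → v = v' := by
    intro v hv v' hv' h
    rw [← (hf v hv).2, h, (hf v' hv').2]
  -- the distinctness claim
  have claim : ∀ k l : ℕ, ∀ i ∈ I, ∀ j ∈ I, (∀ a < k, f^[a] i ∈ T \ Y) →
      (∀ a < l, f^[a] j ∈ T \ Y) → f^[k] i = f^[l] j → i = j ∧ k = l := by
    intro k
    induction k with
    | zero =>
      intro l i hi j hj hk hl h
      rcases l with _ | l
      · exact ⟨h, rfl⟩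
      · exfalso
        rw [Function.iterate_succ_apply'] at h
        have h1 := (hf _ (hl l (Nat.lt_succ_self l))).1
        rw [← h] at h1
        exact disjoint_left.1 hIB hi h1
    | succ k ih =>
      intro l i hi j hj hk hl h
      rcases l with _ | l
      · exfalso
        rw [Function.iterate_succ_apply'] at h
        have h1 := (hf _ (hk k (Nat.lt_succ_self k))).1
        rw [h] at h1
        exact disjoint_left.1 hIB hj h1
      · rw [Function.iterate_succ_apply', Function.iterate_succ_apply'] at h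
        have h1 := hfinj _ (hk k (Nat.lt_succ_self k)) _ (hl l (Nat.lt_succ_self l)) h
        obtain ⟨h2, h3⟩ := ih l i hi j hj (fun a ha => hk a (by omega))
          (fun a ha => hl a (by omega)) h1
        exact ⟨h2, by omega⟩
  have hex : ∀ i ∈ I, ∃ k, f^[k] i ∈ Y := by
    intro i hi
    by_contra hcon
    push Not at hcon
    have hall : ∀ k, f^[k] i ∈ T \ Y := by
      intro k
      induction k with
      | zero => exact ⟨hIT hi, hcon 0⟩
      | succ k ih =>
        refine ⟨?_, hcon (k + 1)⟩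
        rw [Function.iterate_succ_apply']
        exact hBT (hf _ ih).1
    have hinj : Function.Injective (fun k => f^[k] i) := by
      intro a b hab
      exact (claim a b i hi i hi (fun _ _ => hall _) (fun _ _ => hall _) hab).2
    have hinf : (range fun k => f^[k] i).Infinite := infinite_range_of_injective hinj
    apply hinf
    apply hT.subset
    rintro y ⟨k, rfl⟩
    exact (hall k).1
  let n : α → ℕ := fun i => if h : ∃ k, f^[k] i ∈ Y then Nat.find h else 0
  have hn1 : ∀ i ∈ I, f^[n i] i ∈ Y := by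
    intro i hi
    have h := hex i hi
    simp only [n, dif_pos h]
    exact Nat.find_spec h
  have hn2 : ∀ i ∈ I, ∀ k < n i, f^[k] i ∉ Y := by
    intro i hi k hk
    have h := hex i hi
    simp only [n, dif_pos h] at hk
    exact Nat.find_min h hk
  have hn3 : ∀ i ∈ I, ∀ k ≤ n i, f^[k] i ∈ T := by
    intro i hi k
    induction k with
    | zero => exact fun _ => hIT hi
    | succ k ih =>
      intro hk
      rw [Function.iterate_succ_apply']
      exact hBT (hf _ ⟨ih (by omega), hn2 i hi k (by omega)⟩).1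
  have hn4 : ∀ i ∈ I, ∀ k < n i, f^[k] i ∈ T \ Y := fun i hi k hk =>
    ⟨hn3 i hi k hk.le, hn2 i hi k hk⟩
  refine ⟨{v | ∃ i ∈ I, v = f^[n i] i}, ?_, n, fun i k => f^[k] i, ?_, ?_, ?_, ?_, rfl⟩
  · rintro v ⟨i, hi, rfl⟩
    exact hn1 i hi
  · intro i _
    rfl
  · exact hn3
  · intro i hi k hk
    have h1 := hn4 i hi k hk
    obtain ⟨h2, h3⟩ := hf _ h1
    have h4 := hg2 _ h2
    dsimp only
    rw [Function.iterate_succ_apply']
    rcases h4 with h4 | h4
    · exfalso
      rw [h3] at h4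
      have h5 : f^[k] i = f^[k + 1] i := by
        rw [Function.iterate_succ_apply']
        exact h4
      have h6 := claim k (k + 1) i hi i hi (fun a ha => hn4 i hi a (by omega))
        (fun a ha => hn4 i hi a (by omega)) h5
      omega
    · rw [h3] at h4
      exact h4
  · intro i hi k hk j hj l hl h
    exact claim k l i hi j hj (fun a ha => hn4 i hi a (by omega))
      (fun a ha => hn4 j hj a (by omega)) h

/-- From a linking to a matching. -/
theorem matching_of_linking {T Y J I : Set α} {Γ : α → α → Prop}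
    (hJY : J ⊆ Y) (hIT : I ⊆ T) (hJoin : JoinedOnto T Γ I J) :
    ∃ (B : Set α) (g : α → α), B ⊆ T ∧ InjOn g B ∧
      (∀ w ∈ B, g w ∈ T ∧ (g w = w ∨ Γ (g w) w)) ∧ g '' B = T \ Y ∧ Disjoint I B := by
  classical
  obtain ⟨n, p, hp0, hpT, hpΓ, hpd, hJ⟩ := hJoin
  have hfex : ∃ f : α → α, (∀ i ∈ I, ∀ k < n i, f (p i k) = p i (k + 1)) ∧
      (∀ v, (¬ ∃ i ∈ I, ∃ k < n i, v = p i k) → f v = v) := by
    have h : ∀ v, ∃ w, (∀ i ∈ I, ∀ k < n i, v = p i k → w = p i (k + 1)) ∧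
        ((¬ ∃ i ∈ I, ∃ k < n i, v = p i k) → w = v) := by
      intro v
      by_cases hv : ∃ i ∈ I, ∃ k < n i, v = p i k
      · obtain ⟨i, hi, k, hk, hvp⟩ := hv
        refine ⟨p i (k + 1), ?_, fun h => absurd ⟨i, hi, k, hk, hvp⟩ h⟩
        intro j hj l hl hvp'
        obtain ⟨h1, h2⟩ := hpd i hi k hk.le j hj l hl.le (hvp.symm.trans hvp')
        rw [h1, h2]
      · refine ⟨v, ?_, fun _ => rfl⟩
        intro j hj l hl hvp'
        exact absurd ⟨j, hj, l, hl, hvp'⟩ hv
    choose f hf using h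
    exact ⟨f, fun i hi k hk => (hf (p i k)).1 i hi k hk rfl, fun v hv => (hf v).2 hv⟩
  obtain ⟨f, hf1, hf2⟩ := hfex
  have key : ∀ i ∈ I, ∀ k ≤ n i, (¬ ∃ i' ∈ I, ∃ k' < n i', p i k = p i' k') → p i k ∈ J := by
    intro i hi k hk h
    rcases hk.lt_or_eq with h1 | h1
    · exact absurd ⟨i, hi, k, h1, rfl⟩ h
    · rw [hJ, h1]
      exact ⟨i, hi, rfl⟩
  have hfT : ∀ v ∈ T, f v ∈ T := by
    intro v hv
    by_cases h : ∃ i ∈ I, ∃ k < n i, v = p i k
    · obtain ⟨i, hi, k, hk, rfl⟩ := h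
      rw [hf1 i hi k hk]
      exact hpT i hi (k + 1) hk
    · rw [hf2 v h]
      exact hv
  have hfinj : ∀ v, v ∉ J → ∀ v', v' ∉ J → f v = f v' → v = v' := by
    intro v hv v' hv' heq
    by_cases h : ∃ i ∈ I, ∃ k < n i, v = p i k
    · obtain ⟨i, hi, k, hk, rfl⟩ := h
      rw [hf1 i hi k hk] at heq
      by_cases h' : ∃ i ∈ I, ∃ k < n i, v' = p i k
      · obtain ⟨j, hj, l, hl, rfl⟩ := h'
        rw [hf1 j hj l hl] at heq
        obtain ⟨h1, h2⟩ := hpd i hi (k + 1) hk j hj (l + 1) hl heq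
        have h3 : k = l := by omega
        rw [h1, h3]
      · rw [hf2 v' h'] at heq
        exfalso
        apply hv'
        rw [← heq]
        apply key i hi (k + 1) hk
        rw [heq]
        exact h'
    · rw [hf2 v h] at heq
      by_cases h' : ∃ i ∈ I, ∃ k < n i, v' = p i k
      · obtain ⟨j, hj, l, hl, rfl⟩ := h'
        rw [hf1 j hj l hl] at heq
        exfalso
        apply hv
        rw [heq]
        apply key j hj (l + 1) hl
        rw [← heq]
        exact h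
      · rw [hf2 v' h'] at heq
        exact heq
  have hfI : ∀ v, v ∉ J → f v ∉ I := by
    intro v hv hi
    by_cases h : ∃ i ∈ I, ∃ k < n i, v = p i k
    · obtain ⟨i, hi', k, hk, rfl⟩ := h
      rw [hf1 i hi' k hk] at hi
      have h1 := hp0 _ hi
      have h2 := hpd _ hi 0 (Nat.zero_le _) i hi' (k + 1) hk h1
      omega
    · rw [hf2 v h] at hi
      apply hv
      have h1 := hp0 v hi
      rw [← h1]
      apply key v hi 0 (Nat.zero_le _)
      rw [h1]
      exact h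
  have hinj : InjOn f (T \ Y) := fun v hv v' hv' h =>
    hfinj v (fun h => hv.2 (hJY h)) v' (fun h => hv'.2 (hJY h)) h
  have hgex : ∃ g : α → α, ∀ v ∈ T \ Y, g (f v) = v := by
    have h : ∀ w, ∃ v, ∀ v' ∈ T \ Y, f v' = w → v' = v := by
      intro w
      by_cases hw : ∃ v ∈ T \ Y, f v = w
      · obtain ⟨v, hv, hvw⟩ := hw
        exact ⟨v, fun v' hv' h => hinj hv' hv (h.trans hvw.symm)⟩
      · exact ⟨w, fun v' hv' h => absurd ⟨v', hv', h⟩ hw⟩
    choose g hg using h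
    exact ⟨g, fun v hv => (hg (f v) v hv rfl).symm⟩
  obtain ⟨g, hg⟩ := hgex
  refine ⟨f '' (T \ Y), g, ?_, ?_, ?_, ?_, ?_⟩
  · rintro w ⟨v, hv, rfl⟩
    exact hfT v hv.1
  · rintro w ⟨v, hv, rfl⟩ w' ⟨v', hv', rfl⟩ h
    rw [hg v hv, hg v' hv'] at h
    rw [h]
  · rintro w ⟨v, hv, rfl⟩
    rw [hg v hv]
    refine ⟨hv.1, ?_⟩
    by_cases h : ∃ i ∈ I, ∃ k < n i, v = p i k
    · obtain ⟨i, hi, k, hk, rfl⟩ := h
      right
      rw [hf1 i hi k hk]
      exact hpΓ i hi k hk
    · left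
      rw [hf2 v h]
  · ext v
    constructor
    · rintro ⟨w, ⟨v', hv', rfl⟩, rfl⟩
      rw [hg v' hv']
      exact hv'
    · intro hv
      exact ⟨f v, ⟨v, hv, rfl⟩, hg v hv⟩
  · rw [disjoint_left]
    rintro w hwI ⟨v, hv, rfl⟩
    exact hfI v (fun h => hv.2 (hJY h)) hwI

/-- **Digraph induction**: the induced matroid exists and has no new `M(K_4)`-minor. -/
theorem exists_induced (T : Set α) (Γ : α → α → Prop) (M₀ : Matroid α) (A : Set α)
    (hT : T.Finite) (hM : M₀.E ⊆ T) (hA : A ⊆ T) :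
    ∃ N : Matroid α, N.Finite ∧ N.E = A ∧
      (∀ I, N.Indep I ↔ I ⊆ A ∧ ∃ J, M₀.Indep J ∧ JoinedOnto T Γ I J) ∧
      (HasK4 (rk N) → HasK4 (rk M₀)) := by
  classical
  have hPfin : (M₀ ↾ T).Finite := ⟨hT⟩
  have hPfin' : (M₀ ↾ T)✶.Finite := ⟨hT⟩
  have hPE : (M₀ ↾ T)✶.E = T := rfl
  obtain ⟨R, hRf, hRE, hR, hRk⟩ := bip (M₀ ↾ T)✶ (fun w => {v | v ∈ T ∧ (v = w ∨ Γ v w)})
    (fun w v hv => hv.1)
  rw [hPE] at hRE
  have hRb := bip_isBase_iff (M₀ ↾ T)✶ R (fun w => {v | v ∈ T ∧ (v = w ∨ Γ v w)})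
    (fun w hw => ⟨hw, Or.inl rfl⟩) hRE hR
  have hM0 : ∀ J, M₀.Indep J ↔ (M₀ ↾ T).Indep J := by
    intro J
    rw [restrict_indep_iff]
    exact ⟨fun h => ⟨h, h.subset_ground.trans hM⟩, fun h => h.1⟩
  refine ⟨R✶ ↾ A, ⟨hT.subset hA⟩, rfl, ?_, ?_⟩
  · intro I
    rw [restrict_indep_iff, dual_indep_iff_exists', hRE]
    constructor
    · rintro ⟨⟨hIT, B, hB, hIB⟩, hIA⟩
      refine ⟨hIA, ?_⟩
      rw [hRb] at hB
      obtain ⟨hBT, g, hg1, hg2, hg3⟩ := hB
      have hY := hg3.compl_isBase_of_dual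
      rw [restrict_ground_eq] at hY
      have hgT : g '' B ⊆ T := hg3.subset_ground
      have hTY : g '' B = T \ (T \ g '' B) := by
        rw [sdiff_sdiff_cancel_left hgT]
      obtain ⟨J, hJY, hJ⟩ := linking_of_matching (Y := T \ g '' B) hT sdiff_subset hBT hg1
        (fun w hw => (hg2 w hw).2) hTY hIT hIB
      exact ⟨J, (hM0 J).2 (hY.indep.subset hJY), hJ⟩
    · rintro ⟨hIA, J, hJ, hJoin⟩
      refine ⟨⟨hIA.trans hA, ?_⟩, hIA⟩
      rw [hM0] at hJ
      obtain ⟨Y, hY, hJY⟩ := hJ.exists_isBase_superset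
      obtain ⟨B, g, hBT, hg1, hg2, hg3, hIB⟩ := matching_of_linking hJY (hIA.trans hA) hJoin
      refine ⟨B, ?_, hIB⟩
      rw [hRb]
      refine ⟨hBT, g, hg1, hg2, ?_⟩
      rw [hg3]
      exact hY.compl_isBase_dual
  · intro h
    have h1 : HasK4 (rk R✶) := HasK4.of_restrict A h
    have h2 : HasK4 (rk R) := HasK4.of_dual h1
    have h3 := HasK4.of_dual (hRk h2)
    exact HasK4.of_restrict T h3

end Pool.Agent.Helper45.K4
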