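import Mathlib
import Pool.Agent.Helper45.K4.Rank
import Pool.Agent.Helper45.K4.Defs

/-!
# `HasK4 (rk M)` means that `M` has an `M(K_4)`-minor
-/

set_option autoImplicit false

open Set Matroid

namespace Pool.Agent.Helper45.K4

/-- The edges of `K_4`, numbered so that the triangles are `012`, `034`, `135`, `245`. -/
def ed (g : Fin 6) : Sym2 (Fin 4) :=
  if g = 0 then s(0, 1) else if g = 1 then s(0, 2) else if g = 2 then s(1, 2)
  else if g = 3 then s(0, 3) else if g = 4 then s(1, 3) else s(2, 3)

/-- The spanning subgraph of `K_4` with edge set `A`. -/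
def GA (A : Finset (Fin 6)) : SimpleGraph (Fin 4) where
  Adj v w := v ≠ w ∧ ∃ g ∈ A, ed g = s(v, w)
  symm := ⟨fun v w h => ⟨h.1.symm, by simpa [Sym2.eq_swap] using h.2⟩⟩
  loopless := ⟨fun v h => h.1 rfl⟩

instance (A : Finset (Fin 6)) : DecidableRel (GA A).Adj := fun v w =>
  inferInstanceAs (Decidable (v ≠ w ∧ ∃ g ∈ A, ed g = s(v, w)))

instance (A : Finset (Fin 6)) (v w : Fin 4) : DecidableRel ((GA A).deleteEdges {s(v, w)}).Adj :=
  fun a b => decidable_of_iff ((GA A).Adj a b ∧ s(a, b) ≠ s(v, w))
    (by simp [SimpleGraph.deleteEdges_adj])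

theorem acyclic_table : ∀ A : Finset (Fin 6), ((∀ v w, (GA A).Adj v w →
    ¬((GA A).deleteEdges {s(v,w)}).Reachable v w) ↔ rK4 A = A.card) := by
  decide +kernel

theorem acyclic_iff (A : Finset (Fin 6)) :
    (SimpleGraph.fromEdgeSet (ed '' (A : Set (Fin 6)))).IsAcyclic ↔ rK4 A = A.card := by
  have h1 : SimpleGraph.fromEdgeSet (ed '' (A : Set (Fin 6))) = GA A := by
    ext v w
    rw [SimpleGraph.fromEdgeSet_adj]
    simp only [GA, mem_image, Finset.mem_coe]
    tauto
  rw [h1, ← acyclic_table, SimpleGraph.isAcyclic_iff_forall_adj_isBridge]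
  constructor
  · intro h v w hvw
    exact h hvw
  · intro h v w hvw
    exact h v w hvw

/-- The six edges of `K_4`. -/
noncomputable def edEquiv : Fin 6 ≃ (⊤ : SimpleGraph (Fin 4)).edgeSet :=
  Equiv.ofBijective (fun g => ⟨ed g, by
    have h : ∀ g, ¬ (ed g).IsDiag := by decide
    simpa using h g⟩) (by
    constructor
    · intro g g' h
      have h' : ed g = ed g' := congrArg Subtype.val h
      have : ∀ g g', ed g = ed g' → g = g' := by decide
      exact this g g' h'
    · rintro ⟨e, he⟩
      have h1 : ¬ e.IsDiag := by simpa using he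
      have h2 : ∀ e : Sym2 (Fin 4), ¬ e.IsDiag → ∃ g, ed g = e := by decide
      obtain ⟨g, hg⟩ := h2 e h1
      exact ⟨g, Subtype.ext hg⟩)

theorem edEquiv_val (g : Fin 6) : (edEquiv g : Sym2 (Fin 4)) = ed g := rfl

theorem rK4_mono : ∀ A B : Finset (Fin 6), B ⊆ A → rK4 B ≤ rK4 A := by decide +kernel

theorem rK4_basis : ∀ A : Finset (Fin 6), ∃ B, B ⊆ A ∧ rK4 B = B.card ∧ rK4 B = rK4 A := by
  decide +kernel

/-- Ranks from independent sets. -/
theorem rk_of_indep {α : Type*} (N : Matroid α) [N.Finite] (x : Fin 6 → α)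
    (hx : Function.Injective x)
    (h : ∀ A : Finset (Fin 6), N.Indep (x '' A) ↔ rK4 A = A.card) (A : Finset (Fin 6)) :
    rk N (x '' A) = rK4 A := by
  classical
  apply le_antisymm
  · obtain ⟨I, hI⟩ := N.exists_isBasis' (x '' A)
    have h1 : rk N (x '' A) = I.ncard := by
      unfold rk
      rw [← hI.encard_eq_eRk]
      rfl
    set B := A.filter (fun g => x g ∈ I) with hB
    have h2 : I = x '' (B : Set (Fin 6)) := by
      ext y
      constructor
      · intro hy
        obtain ⟨g, hg, rfl⟩ := hI.subset hy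
        refine ⟨g, ?_, rfl⟩
        simp only [hB, Finset.coe_filter, mem_ofPred_eq]
        exact ⟨hg, hy⟩
      · rintro ⟨g, hg, rfl⟩
        simp only [hB, Finset.coe_filter, mem_ofPred_eq] at hg
        exact hg.2
    have h3 : rK4 B = B.card := by
      rw [← h, ← h2]
      exact hI.indep
    rw [h1, h2, ncard_image_of_injective _ hx, ncard_coe_finset, ← h3]
    exact rK4_mono A B (Finset.filter_subset _ _)
  · obtain ⟨B, hBA, hB, hBr⟩ := rK4_basis A
    have h1 : N.Indep (x '' B) := (h B).2 hB
    have h2 : rk N (x '' B) = B.card := by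
      unfold rk
      rw [h1.eRk_eq_encard]
      have : (x '' (B : Set (Fin 6))).ncard = B.card := by
        rw [ncard_image_of_injective _ hx, ncard_coe_finset]
      exact this
    rw [← hBr, hB, ← h2]
    exact (isRk_rk N).mono (image_mono (by exact_mod_cast hBA))

theorem indep_of_rk {α : Type*} (N : Matroid α) [N.Finite] (x : Fin 6 → α)
    (hx : Function.Injective x)
    (h : ∀ A : Finset (Fin 6), rk N (x '' A) = rK4 A) (A : Finset (Fin 6)) :
    N.Indep (x '' A) ↔ rK4 A = A.card := by
  rw [indep_iff_eRk_eq_encard, ← coe_rk, h, ← ((Finset.finite_toSet A).image x).cast_ncard_eq,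
    ncard_image_of_injective _ hx, ncard_coe_finset]
  exact_mod_cast Iff.rfl

/-- An isomorphic copy of `M(K_4)` has the rank function `rK4`. -/
theorem HasK4.of_isMK4 {α : Type} {N : Matroid α} (hN : N.Finite) (h : IsMK4 N) :
    HasK4 (rk N) := by
  obtain ⟨e, he⟩ := h
  have hx : Function.Injective (fun g => ((e (edEquiv g)) : α)) :=
    Subtype.val_injective.comp (e.injective.comp edEquiv.injective)
  refine ⟨∅, fun g => (e (edEquiv g) : α), fun A => ?_⟩
  rw [union_empty, (isRk_rk N).empty, add_zero]
  apply rk_of_indep N _ hx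
  intro A
  have h1 := he (edEquiv '' A)
  rw [← image_comp, ← image_comp, ← image_comp] at h1
  have h2 : (Subtype.val ∘ edEquiv : Fin 6 → Sym2 (Fin 4)) = ed := by
    funext g
    exact edEquiv_val g
  rw [h2, acyclic_iff] at h1
  exact h1

/-- **`M` has an `M(K_4)`-minor iff `HasK4 (rk M)`.** -/
theorem hasK4_iff {α : Type} (M : Matroid α) [M.Finite] :
    HasK4 (rk M) ↔ ∃ N : Matroid α, N ≤m M ∧ IsMK4 N := by
  classical
  constructor
  · rintro ⟨C, x, h⟩
    have hinj := k4_injective h
    have hE : ∀ g, x g ∈ M.E := fun g => k4_mem (r := rk M) (R := M.E)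
      (fun X => (rk_inter_ground M X).symm) h g
    have hC : ∀ g, x g ∉ C := k4_notMem h
    have hdisj : Disjoint (range x) C := by
      rw [disjoint_left]
      rintro y ⟨g, rfl⟩
      exact hC g
    have hsub : range x ⊆ (M ／ C).E := by
      rintro y ⟨g, rfl⟩
      exact ⟨hE g, hC g⟩
    have hNr : ∀ A : Finset (Fin 6), rk ((M ／ C) ↾ range x) (x '' A) = rK4 A := by
      intro A
      rw [rk_restrict]
      have h1 : x '' (A : Set (Fin 6)) ∩ range x = x '' A := by
        rw [inter_eq_left]
        exact image_subset_range _ _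
      have h2 := rk_contract M C (x '' A)
      have h3 := h A
      rw [h1]
      omega
    have hfin : ((M ／ C) ↾ range x).Finite := ⟨finite_range x⟩
    refine ⟨(M ／ C) ↾ range x, ?_, ?_⟩
    · refine ⟨C, (M ／ C).E \ range x, ?_⟩
      rw [delete_eq_restrict, sdiff_sdiff_cancel_left hsub]
    · refine ⟨edEquiv.symm.trans (Equiv.ofInjective x hinj), fun I => ?_⟩
      set A : Finset (Fin 6) := Finset.univ.filter (fun g => edEquiv g ∈ I) with hA
      have hIA : I = edEquiv '' (A : Set (Fin 6)) := by
        ext y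
        constructor
        · intro hy
          refine ⟨edEquiv.symm y, ?_, by simp⟩
          simp only [hA, Finset.coe_filter, Finset.mem_univ, true_and, mem_ofPred_eq]
          simpa using hy
        · rintro ⟨g, hg, rfl⟩
          simp only [hA, Finset.coe_filter, Finset.mem_univ, true_and, mem_ofPred_eq] at hg
          exact hg
      have h1 : (Subtype.val '' ((edEquiv.symm.trans (Equiv.ofInjective x hinj)) '' I) : Set α) =
          x '' A := by
        rw [hIA, ← image_comp, ← image_comp]
        apply image_congr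
        intro g _
        simp
      have h2 : (Subtype.val '' I : Set (Sym2 (Fin 4))) = ed '' A := by
        rw [hIA, ← image_comp]
        apply image_congr
        intro g _
        exact edEquiv_val g
      rw [h2, acyclic_iff, ← indep_of_rk _ x hinj hNr A]
      exact iff_of_eq (congrArg _ h1)
  · rintro ⟨N, ⟨C, D, rfl⟩, hN⟩
    have hfin : (M ／ C ＼ D).Finite := by
      constructor
      exact M.ground_finite.subset (sdiff_subset.trans sdiff_subset)
    have h1 := HasK4.of_isMK4 hfin hN
    rw [delete_eq_restrict] at h1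
    exact HasK4.of_contract' C (HasK4.of_restrict _ h1)

theorem rK4_indep_subset : ∀ A B : Finset (Fin 6), A ⊆ B → rK4 B = B.card → rK4 A = A.card := by
  decide +kernel

theorem rK4_indep_augment : ∀ A B : Finset (Fin 6), rK4 A = A.card → rK4 B = B.card →
    A.card < B.card → ∃ e ∈ B, e ∉ A ∧ rK4 (insert e A) = (insert e A).card := by
  decide +kernel

/-- `M(K_4)` exists. -/
theorem exists_isMK4 : ∃ N : Matroid (Fin 6), IsMK4 N := by
  classical
  have hex : ∃ N : Matroid (Fin 6), N.E = univ ∧
      ∀ A : Finset (Fin 6), N.Indep (A : Set (Fin 6)) ↔ rK4 A = A.card := by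
    refine ⟨(IndepMatroid.ofFinite (E := (univ : Set (Fin 6))) finite_univ
        (fun I => ∀ A : Finset (Fin 6), (A : Set (Fin 6)) = I → rK4 A = A.card)
        ?_ ?_ ?_ (fun I _ => subset_univ I)).matroid, rfl, fun A => ?_⟩
    · intro A hA
      rw [Finset.coe_eq_empty] at hA
      rw [hA]
      exact rK4_empty
    · intro I J hJ hIJ A hA
      lift J to Finset (Fin 6) using toFinite J
      rw [← hA] at hIJ
      exact rK4_indep_subset A J (by exact_mod_cast hIJ) (hJ J rfl)
    · intro I J hI hJ h
      lift I to Finset (Fin 6) using toFinite I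
      lift J to Finset (Fin 6) using toFinite J
      rw [ncard_coe_finset, ncard_coe_finset] at h
      obtain ⟨e, he, heI, h'⟩ := rK4_indep_augment _ _ (hI I rfl) (hJ J rfl) h
      refine ⟨e, by simpa using he, by simpa using heI, ?_⟩
      intro A hA
      rw [← Finset.coe_insert, Finset.coe_inj] at hA
      rw [hA]
      exact h'
    · constructor
      · intro h
        exact h A rfl
      · intro h B hB
        rw [Finset.coe_inj] at hB
        rw [hB]
        exact h
  obtain ⟨N, hNE, hadd⟩ := hex
  refine ⟨N, edEquiv.symm.trans ((Equiv.Set.univ (Fin 6)).symm.trans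
    (Equiv.setCongr hNE.symm)), fun I => ?_⟩
  set A : Finset (Fin 6) := Finset.univ.filter (fun g => edEquiv g ∈ I) with hA
  have hIA : I = edEquiv '' (A : Set (Fin 6)) := by
    ext y
    constructor
    · intro hy
      refine ⟨edEquiv.symm y, ?_, by simp⟩
      simp only [hA, Finset.coe_filter, Finset.mem_univ, true_and, mem_ofPred_eq]
      simpa using hy
    · rintro ⟨g, hg, rfl⟩
      simp only [hA, Finset.coe_filter, Finset.mem_univ, true_and, mem_ofPred_eq] at hg
      exact hg
  have h1 : (Subtype.val '' ((edEquiv.symm.trans ((Equiv.Set.univ (Fin 6)).symm.trans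
      (Equiv.setCongr hNE.symm))) '' I) : Set (Fin 6)) = A := by
    rw [hIA, ← image_comp, ← image_comp]
    ext y
    simp
  have h2 : (Subtype.val '' I : Set (Sym2 (Fin 4))) = ed '' A := by
    rw [hIA, ← image_comp]
    apply image_congr
    intro g _
    exact edEquiv_val g
  rw [h2, acyclic_iff, ← hadd A]
  exact iff_of_eq (congrArg _ h1)

end Pool.Agent.Helper45.K4
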