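import Mathlib
import Pool.Agent.Helper45.K4.Minor
import Pool.Agent.Helper45.K4.Digraph

/-!
# The class of matroids without `M(K_4)`-minor is complete
-/

set_option autoImplicit false

open Set Matroid

namespace Pool.Agent.Helper45.K4

/-! ### Isomorphism -/

theorem HasK4.of_iso {α β : Type} {M : Matroid α} {N : Matroid β} (h : Iso M N)
    (hk : HasK4 (rk N)) : HasK4 (rk M) := by
  classical
  obtain ⟨e, he⟩ := h
  have hk' := hk
  obtain ⟨C, x, hx⟩ := hk'
  have hm : x 0 ∈ N.E := k4_mem (r := rk N) (R := N.E)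
    (fun X => (rk_inter_ground N X).symm) hx 0
  let a₀ : α := (e.symm ⟨x 0, hm⟩ : M.E)
  let f : β → α := fun v => if h : v ∈ N.E then ((e.symm ⟨v, h⟩ : M.E) : α) else a₀
  have hf : ∀ v (h : v ∈ N.E), f v = ((e.symm ⟨v, h⟩ : M.E) : α) := fun v h => dif_pos h
  have hinj : InjOn f N.E := by
    intro v hv w hw hvw
    rw [hf v hv, hf w hw] at hvw
    have h1 := e.symm.injective (Subtype.ext hvw)
    exact congrArg Subtype.val h1
  have hmap : M = N.map f hinj := by
    refine Matroid.ext_indep ?_ ?_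
    · rw [map_ground]
      ext a
      constructor
      · intro ha
        refine ⟨e ⟨a, ha⟩, (e ⟨a, ha⟩).2, ?_⟩
        rw [hf _ (e ⟨a, ha⟩).2]
        simp
      · rintro ⟨v, hv, rfl⟩
        rw [hf v hv]
        exact (e.symm ⟨v, hv⟩).2
    · intro I hI
      rw [map_indep_iff]
      have h1 := he (Subtype.val ⁻¹' I)
      rw [Subtype.image_preimage_coe, inter_eq_self_of_subset_right hI] at h1
      rw [h1]
      have key : ∀ I₀ : Set β, I₀ ⊆ N.E → I = f '' I₀ →
          I₀ = Subtype.val '' (e '' (Subtype.val ⁻¹' I : Set M.E)) := by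
        intro I₀ hI₀ hII
        ext v
        constructor
        · intro hv
          refine ⟨⟨v, hI₀ hv⟩, ⟨e.symm ⟨v, hI₀ hv⟩, ?_, by simp⟩, rfl⟩
          rw [mem_preimage, hII, ← hf v (hI₀ hv)]
          exact ⟨v, hv, rfl⟩
        · rintro ⟨w, ⟨u, hu, rfl⟩, rfl⟩
          rw [mem_preimage, hII] at hu
          obtain ⟨v, hv, hvu⟩ := hu
          rw [hf v (hI₀ hv)] at hvu
          have h2 : e.symm ⟨v, hI₀ hv⟩ = u := Subtype.ext hvu
          rw [← h2]
          simpa using hv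
      constructor
      · intro h
        refine ⟨_, h, ?_⟩
        ext a
        constructor
        · intro ha
          refine ⟨e ⟨a, hI ha⟩, ⟨e ⟨a, hI ha⟩, ⟨⟨a, hI ha⟩, ha, rfl⟩, rfl⟩, ?_⟩
          rw [hf _ (e ⟨a, hI ha⟩).2]
          simp
        · rintro ⟨v, ⟨w, ⟨u, hu, rfl⟩, rfl⟩, rfl⟩
          rw [hf _ (e u).2]
          simpa using hu
      · rintro ⟨I₀, hI₀, hII⟩
        rw [← key I₀ hI₀.subset_ground hII]
        exact hI₀
  apply HasK4.of_image f
  apply HasK4.of_inter N.E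
  have : (fun X : Set β => rk M (f '' (X ∩ N.E))) = rk N := by
    funext X
    rw [← rk_inter_ground N X]
    unfold rk
    rw [hmap, eRk_map _ _ inter_subset_right]
  rw [this]
  exact hk

/-! ### Direct sums -/

theorem rk_sum {α β : Type} (M : Matroid α) [M.Finite] (N : Matroid β) [N.Finite]
    (X : Set (α ⊕ β)) : rk (M.sum N) X = rk M (Sum.inl ⁻¹' X) + rk N (Sum.inr ⁻¹' X) := by
  rw [← rk_inter_ground, ← rk_inter_ground M, ← rk_inter_ground N]
  obtain ⟨I, hI⟩ := M.exists_isBasis (Sum.inl ⁻¹' X ∩ M.E) inter_subset_right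
  obtain ⟨J, hJ⟩ := N.exists_isBasis (Sum.inr ⁻¹' X ∩ N.E) inter_subset_right
  have h1 : (M.sum N).IsBasis (Sum.inl '' I ∪ Sum.inr '' J) (X ∩ (M.sum N).E) := by
    rw [sum_isBasis_iff]
    constructor
    · have e1 : (Sum.inl : α → α ⊕ β) ⁻¹' (Sum.inl '' I ∪ Sum.inr '' J) = I := by
        ext z
        simp
      have e2 : (Sum.inl : α → α ⊕ β) ⁻¹' (X ∩ (M.sum N).E) = Sum.inl ⁻¹' X ∩ M.E := by
        ext z
        simp
      rw [e1, e2]
      exact hI
    · have e1 : (Sum.inr : β → α ⊕ β) ⁻¹' (Sum.inl '' I ∪ Sum.inr '' J) = J := by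
        ext z
        simp
      have e2 : (Sum.inr : β → α ⊕ β) ⁻¹' (X ∩ (M.sum N).E) = Sum.inr ⁻¹' X ∩ N.E := by
        ext z
        simp
      rw [e1, e2]
      exact hJ
  have hIf : I.Finite := M.ground_finite.subset hI.indep.subset_ground
  have hJf : J.Finite := N.ground_finite.subset hJ.indep.subset_ground
  unfold rk
  rw [← h1.encard_eq_eRk, ← hI.encard_eq_eRk, ← hJ.encard_eq_eRk]
  have hd : Disjoint ((Sum.inl : α → α ⊕ β) '' I) (Sum.inr '' J) := by
    rw [disjoint_left]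
    rintro y ⟨a, -, rfl⟩ ⟨b, -, hb⟩
    cases hb
  rw [encard_union_eq hd, Sum.inl_injective.encard_image, Sum.inr_injective.encard_image,
    ← hIf.cast_ncard_eq, ← hJf.cast_ncard_eq, ← Nat.cast_add]
  simp only [ENat.toNat_natCast]

theorem rK4_connected : ∀ S : Finset (Fin 6),
    (∀ A : Finset (Fin 6), rK4 A = rK4 (A ∩ S) + rK4 (A \ S)) → S = ∅ ∨ S = Finset.univ := by
  decide +kernel

theorem HasK4.of_sum {α β : Type} {r₁ : Set α → ℕ} {r₂ : Set β → ℕ}
    (hk : HasK4 (fun X : Set (α ⊕ β) => r₁ (Sum.inl ⁻¹' X) + r₂ (Sum.inr ⁻¹' X))) :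
    HasK4 r₁ ∨ HasK4 r₂ := by
  classical
  obtain ⟨C, x, h⟩ := hk
  dsimp only at h
  set S : Finset (Fin 6) := Finset.univ.filter (fun g => x g ∈ range (Sum.inl : α → α ⊕ β))
    with hS
  have hmem : ∀ g, g ∈ S ↔ x g ∈ range (Sum.inl : α → α ⊕ β) := by
    intro g
    simp [hS]
  have h1 : ∀ A : Finset (Fin 6), (Sum.inl : α → α ⊕ β) ⁻¹' (x '' A ∪ C) =
      Sum.inl ⁻¹' (x '' ↑(A ∩ S) ∪ C) := by
    intro A
    ext z
    simp only [mem_preimage, mem_union, mem_image, Finset.coe_inter, mem_inter_iff, Finset.mem_coe]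
    constructor
    · rintro (⟨g, hg, hgz⟩ | h)
      · exact Or.inl ⟨g, ⟨hg, (hmem g).2 ⟨z, hgz.symm⟩⟩, hgz⟩
      · exact Or.inr h
    · rintro (⟨g, hg, hgz⟩ | h)
      · exact Or.inl ⟨g, hg.1, hgz⟩
      · exact Or.inr h
  have h2 : ∀ A : Finset (Fin 6), (Sum.inr : β → α ⊕ β) ⁻¹' (x '' A ∪ C) =
      Sum.inr ⁻¹' (x '' ↑(A \ S) ∪ C) := by
    intro A
    ext z
    simp only [mem_preimage, mem_union, mem_image, Finset.coe_sdiff, mem_sdiff, Finset.mem_coe]
    constructor
    · rintro (⟨g, hg, hgz⟩ | h)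
      · refine Or.inl ⟨g, ⟨hg, ?_⟩, hgz⟩
        rw [hmem, hgz]
        rintro ⟨y, hy⟩
        cases hy
      · exact Or.inr h
    · rintro (⟨g, hg, hgz⟩ | h)
      · exact Or.inl ⟨g, hg.1, hgz⟩
      · exact Or.inr h
  have hsplit : ∀ A : Finset (Fin 6), rK4 A = rK4 (A ∩ S) + rK4 (A \ S) := by
    intro A
    have k1 := h A
    have k2 := h (A ∩ S)
    have k3 := h (A \ S)
    have k4 := h ∅
    rw [rK4_empty] at k4
    have e1 := h1 A
    have e2 := h2 A
    have e3 := h2 (A ∩ S)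
    have e4 := h1 (A \ S)
    have s1 : (A ∩ S) \ S = ∅ := by
      ext g; simp
    have s2 : (A \ S) ∩ S = ∅ := by
      ext g; simp
    rw [s1] at e3
    rw [s2] at e4
    rw [e3] at k2
    rw [e4] at k3
    rw [e1, e2] at k1
    simp only [Finset.coe_empty, image_empty, empty_union] at k1 k2 k3 k4
    omega
  rcases rK4_connected S hsplit with hS0 | hS1
  · right
    have hx : ∀ g, ∃ y : β, x g = Sum.inr y := by
      intro g
      rcases hxg : x g with a | b
      · have : g ∈ S := (hmem g).2 ⟨a, hxg.symm⟩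
        rw [hS0] at this
        exact absurd this (Finset.notMem_empty g)
      · exact ⟨b, rfl⟩
    choose y hy using hx
    refine ⟨Sum.inr ⁻¹' C, y, fun A => ?_⟩
    have k1 := h A
    have k4 := h ∅
    rw [h1 A] at k1
    rw [rK4_empty] at k4
    have s2 : A ∩ S = ∅ := by rw [hS0]; simp
    have s3 : (Sum.inr : β → α ⊕ β) ⁻¹' (x '' A ∪ C) = y '' A ∪ Sum.inr ⁻¹' C := by
      ext z
      simp only [mem_preimage, mem_union, mem_image, Finset.mem_coe]
      constructor
      · rintro (⟨g, hg, hgz⟩ | h)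
        · rw [hy g] at hgz
          exact Or.inl ⟨g, hg, Sum.inr_injective hgz⟩
        · exact Or.inr h
      · rintro (⟨g, hg, rfl⟩ | h)
        · exact Or.inl ⟨g, hg, hy g⟩
        · exact Or.inr h
    rw [s2, s3] at k1
    simp only [Finset.coe_empty, image_empty, empty_union] at k1 k4
    omega
  · left
    have hx : ∀ g, ∃ y : α, x g = Sum.inl y := by
      intro g
      have : g ∈ S := by rw [hS1]; exact Finset.mem_univ g
      obtain ⟨y, hy⟩ := (hmem g).1 this
      exact ⟨y, hy.symm⟩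
    choose y hy using hx
    refine ⟨Sum.inl ⁻¹' C, y, fun A => ?_⟩
    have k1 := h A
    have k4 := h ∅
    rw [h2 A] at k1
    rw [rK4_empty] at k4
    have s2 : A \ S = ∅ := by rw [hS1]; simp
    have s3 : (Sum.inl : α → α ⊕ β) ⁻¹' (x '' A ∪ C) = y '' A ∪ Sum.inl ⁻¹' C := by
      ext z
      simp only [mem_preimage, mem_union, mem_image, Finset.mem_coe]
      constructor
      · rintro (⟨g, hg, hgz⟩ | h)
        · rw [hy g] at hgz
          exact Or.inl ⟨g, hg, Sum.inl_injective hgz⟩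
        · exact Or.inr h
      · rintro (⟨g, hg, rfl⟩ | h)
        · exact Or.inl ⟨g, hg, hy g⟩
        · exact Or.inr h
    rw [s2, s3] at k1
    simp only [Finset.coe_empty, image_empty, empty_union] at k1 k4
    omega

/-! ### Truncation -/

theorem exists_truncation {α : Type} (M : Matroid α) [M.Finite] (k : ℕ) :
    ∃ N : Matroid α, N.E = M.E ∧ (∀ I, N.Indep I ↔ M.Indep I ∧ I.encard ≤ k) := by
  refine ⟨(IndepMatroid.ofFinite (E := M.E) M.ground_finite
    (fun I => M.Indep I ∧ I.encard ≤ k) ?_ ?_ ?_ ?_).matroid, rfl, fun I => Iff.rfl⟩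
  · exact ⟨M.empty_indep, by simp⟩
  · rintro I J ⟨h1, h2⟩ hIJ
    exact ⟨h1.subset hIJ, (encard_le_encard hIJ).trans h2⟩
  · rintro I J ⟨hI1, hI2⟩ ⟨hJ1, hJ2⟩ hlt
    obtain ⟨x, hxJ, hxI, hx⟩ := augment' hI1 hJ1 hlt
    refine ⟨x, hxJ, hxI, hx, ?_⟩
    have hIf : I.Finite := M.ground_finite.subset hI1.subset_ground
    have hJf : J.Finite := M.ground_finite.subset hJ1.subset_ground
    rw [encard_insert_of_notMem hxI, ← hIf.cast_ncard_eq]
    rw [← hJf.cast_ncard_eq] at hJ2
    have : J.ncard ≤ k := by exact_mod_cast hJ2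
    have h3 : I.ncard + 1 ≤ k := by omega
    exact_mod_cast h3
  · rintro I ⟨hI1, -⟩
    exact hI1.subset_ground

theorem rk_truncation {α : Type} (M N : Matroid α) [M.Finite] [N.Finite] (k : ℕ)
    (hN : ∀ I, N.Indep I ↔ M.Indep I ∧ I.encard ≤ k) (X : Set α) :
    rk N X = min (rk M X) k := by
  obtain ⟨J, hJ⟩ := N.exists_isBasis' X
  have hJi := (hN J).1 hJ.indep
  have hJf : J.Finite := N.ground_finite.subset hJ.indep.subset_ground
  have h1 : rk N X = J.ncard := by
    unfold rk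
    rw [← hJ.encard_eq_eRk]
    rfl
  obtain ⟨I, hI, hJI⟩ := hJi.1.subset_isBasis'_of_subset hJ.subset
  have hIf : I.Finite := M.ground_finite.subset hI.indep.subset_ground
  have h2 : rk M X = I.ncard := by
    unfold rk
    rw [← hI.encard_eq_eRk]
    rfl
  have h3 : J.ncard ≤ I.ncard := ncard_le_ncard hJI hIf
  have h4 : J.ncard ≤ k := by
    have := hJi.2
    rw [← hJf.cast_ncard_eq] at this
    exact_mod_cast this
  rw [h1, h2]
  by_contra hne
  have h5 : J.ncard < I.ncard ∧ J.ncard < k := by omega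
  obtain ⟨x, hxI, hxJ⟩ := exists_mem_notMem_of_ncard_lt_ncard h5.1 hJf
  have h6 : N.Indep (insert x J) := by
    rw [hN]
    refine ⟨hI.indep.subset (insert_subset hxI hJI), ?_⟩
    rw [encard_insert_of_notMem hxJ, ← hJf.cast_ncard_eq]
    have h7 : J.ncard + 1 ≤ k := h5.2
    exact_mod_cast h7
  have h8 : J = insert x J := hJ.eq_of_subset_indep h6 (subset_insert x J)
    (insert_subset (hI.subset hxI) hJ.subset)
  exact hxJ (h8 ▸ mem_insert x J)

/-! ### Summary -/

theorem noMK4Minor_iff {α : Type} (M : Matroid α) :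
    NoMK4Minor α M ↔ M.Finite ∧ ¬ HasK4 (rk M) := by
  unfold NoMK4Minor
  constructor
  · rintro ⟨h1, h2⟩
    refine ⟨h1, fun h => ?_⟩
    rw [hasK4_iff] at h
    obtain ⟨N, hN, hN'⟩ := h
    exact h2 N hN hN'
  · rintro ⟨h1, h2⟩
    refine ⟨h1, fun N hN hN' => h2 ?_⟩
    rw [hasK4_iff]
    exact ⟨N, hN, hN'⟩

/-- **The class `𝒦` is complete.** -/
theorem isComplete_noMK4Minor : IsComplete NoMK4Minor where
  finite := fun α M h => h.1
  iso := by
    intro α β M N hMN hM
    rw [noMK4Minor_iff] at hM ⊢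
    refine ⟨?_, fun h => hM.2 (HasK4.of_iso hMN h)⟩
    obtain ⟨e, -⟩ := hMN
    have h1 : Finite M.E := hM.1.ground_finite
    have h2 : Finite N.E := Finite.of_equiv _ e
    exact ⟨h2⟩
  restriction := by
    intro α M R hR hM
    rw [noMK4Minor_iff] at hM ⊢
    obtain ⟨h1, h2⟩ := hM
    refine ⟨⟨h1.ground_finite.subset hR⟩, fun h => h2 (HasK4.of_restrict R h)⟩
  contraction := by
    intro α M X _ hM
    rw [noMK4Minor_iff] at hM ⊢
    obtain ⟨h1, h2⟩ := hM
    refine ⟨⟨h1.ground_finite.subset sdiff_subset⟩, fun h => h2 (HasK4.of_contract' X h)⟩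
  duality := by
    intro α M hM
    rw [noMK4Minor_iff] at hM ⊢
    obtain ⟨h1, h2⟩ := hM
    exact ⟨⟨h1.ground_finite⟩, fun h => h2 (HasK4.of_dual h)⟩
  directSum := by
    intro α β M N hM hN
    rw [noMK4Minor_iff] at hM hN ⊢
    obtain ⟨h1, h2⟩ := hM
    obtain ⟨h3, h4⟩ := hN
    refine ⟨⟨?_⟩, fun h => ?_⟩
    · rw [sum_ground]
      exact (h1.ground_finite.image _).union (h3.ground_finite.image _)
    · have h5 : rk (M.sum N) =
          (fun X : Set (α ⊕ β) => rk M (Sum.inl ⁻¹' X) + rk N (Sum.inr ⁻¹' X)) := by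
        funext X
        exact rk_sum M N X
      rw [h5] at h
      rcases HasK4.of_sum h with h | h
      · exact h2 h
      · exact h4 h
  truncation := by
    intro α M k hM
    rw [noMK4Minor_iff] at hM
    obtain ⟨h1, h2⟩ := hM
    obtain ⟨N, hNE, hN⟩ := exists_truncation M k
    refine ⟨N, hNE, hN, ?_⟩
    have hNf : N.Finite := ⟨by rw [hNE]; exact h1.ground_finite⟩
    rw [noMK4Minor_iff]
    refine ⟨hNf, fun h => h2 ?_⟩
    apply HasK4.of_trunc (isRk_rk M) k
    have : (fun X => min (rk M X) k) = rk N := by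
      funext X
      rw [rk_truncation M N k hN X]
    rw [this]
    exact h
  induction := by
    intro α T Γ M₀ A hT hM hA hC
    rw [noMK4Minor_iff] at hC
    obtain ⟨N, hNf, hNE, hN, hNk⟩ := exists_induced T Γ M₀ A hT hM hA
    refine ⟨N, hNE, hN, ?_⟩
    rw [noMK4Minor_iff]
    exact ⟨hNf, fun h => hC.2 (hNk h)⟩

/-- Every complete class without copies of `M(K_4)` is contained in `𝒦`. -/
theorem le_noMK4Minor (C : MatroidClass) (hC : IsComplete C)
    (hav : ∀ (α : Type) (N : Matroid α), IsMK4 N → ¬ C α N) (α : Type) (M : Matroid α)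
    (hM : C α M) : NoMK4Minor α M := by
  refine ⟨hC.finite α M hM, fun N hN hN' => hav α N hN' ?_⟩
  obtain ⟨X, D, hX, hD, hXD, rfl⟩ := hN.exists_eq_contract_delete_disjoint
  rw [delete_eq_restrict]
  exact hC.restriction α _ _ sdiff_subset (hC.contraction α M X hX hM)

end Pool.Agent.Helper45.K4
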